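import Pool.Agent.Lib.MP_c1293d_lc.Low.Loc

/-!
Module Cons: conservation of the flow of commodity `i`, in test function form.

PROOF of `conservation`. Abbreviate `W0 = whites with w i = 0`, `W1 = whites with w i ≠ 0`,
`B1 = blacks with b i ≠ 0`.
(1) coefficient of `P b`, `b ∈ B1`: `uu b i - ∑_{m ∈ supp b \ i} vv b m = 0` (`aa_eq_supp`).
(2) `∑_{b ∈ B1} uu b i P (dn b i) = ∑_{w ∈ Wh k s} uu (up w i) i P w` (reindex with
`F b m = if m = i then uu b i * P (dn b i) else 0`, note `dn_up`), and this is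
`∑_{W0} dw w P w + ∑_{W1} uu (up w i) i P w` (`uu_up_eq_dw`).
(3) `∑_{b ∈ B1} ∑_{m ∈ (supp b) \ i} vv b m P (dn b m) = ∑_{w ∈ W1} ∑_{m ≠ i} vv (up w m) m P w` (reindex with
`F b m = if m ≠ i ∧ b i ≠ 0 then vv b m * P (dn b m) else 0`; `(up w m) i = w i` for `m ≠ i`).
(4) total of `tau`: `∑_{W1} tau i w = ∑_{W0} dw w` =: F: the special case `P = 1` of (2) and (3):
`∑_{W1} tau = ∑_{B1} ∑_{m ≠ i} vv b m - ∑_{W1} uu (up w i) i = ∑_{B1} uu b i - ∑_{W1} uu (up w i) i
= ∑_{W0} dw`.
(5) Then the left side is `∑_{W0} dw (P w - P0) - ∑_{W0} dw P w - ∑_{W1} uu (up w i) i P w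
+ ∑_{W1} ∑_{m ≠ i} vv (up w m) m P w + ∑_{W1} tau (P t - P w) = F (P t - P0)`.
-/

namespace BcrL

open Finset

variable {k : ℕ}

/-- reindexing of the arcs entering the black vectors -/
private theorem cons_r2 {s q : ℕ} {κ : ℝ} (i : Fin k) (P : (Fin k → ℕ) → ℝ) :
    ∑ b ∈ (Wh k (s + 1)).filter (fun b => b i ≠ 0), uu q κ b i * P (dn b i) =
      ∑ w ∈ Wh k s, uu q κ (up w i) i * P w := by
  classical
  have h := reindex k s (fun b m => if m = i then uu q κ b i * P (dn b i) else 0)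
  have hL : ∀ b ∈ Wh k (s + 1), ∑ m ∈ supp b, (if m = i then uu q κ b i * P (dn b i) else 0) =
      if b i ≠ 0 then uu q κ b i * P (dn b i) else 0 := by
    intro b _
    rw [Finset.sum_ite_eq' (supp b) i (fun _ => uu q κ b i * P (dn b i))]
    simp only [mem_supp]
  have hR : ∀ w ∈ Wh k s, ∑ m, (if m = i then uu q κ (up w m) i * P (dn (up w m) i) else 0) =
      uu q κ (up w i) i * P w := by
    intro w _
    rw [Finset.sum_eq_single i]
    · rw [if_pos rfl, dn_up]
    · intro m _ hm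
      rw [if_neg hm]
    · intro h0
      exact absurd (mem_univ i) h0
  rw [Finset.sum_congr rfl hL, Finset.sum_congr rfl hR] at h
  rw [Finset.sum_filter]
  exact h

/-- reindexing of the arcs leaving the black vectors -/
private theorem cons_r3 {s q : ℕ} {κ : ℝ} (i : Fin k) (P : (Fin k → ℕ) → ℝ) :
    ∑ b ∈ (Wh k (s + 1)).filter (fun b => b i ≠ 0),
        ∑ m ∈ (supp b).erase i, vv q κ b m * P (dn b m) =
      ∑ w ∈ (Wh k s).filter (fun w => w i ≠ 0), (∑ m ∈ univ.erase i, vv q κ (up w m) m) * P w := by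
  classical
  have h := reindex k s (fun b m => if m ≠ i ∧ b i ≠ 0 then vv q κ b m * P (dn b m) else 0)
  have hL : ∀ b ∈ Wh k (s + 1), ∑ m ∈ supp b,
      (if m ≠ i ∧ b i ≠ 0 then vv q κ b m * P (dn b m) else 0) =
      if b i ≠ 0 then ∑ m ∈ (supp b).erase i, vv q κ b m * P (dn b m) else 0 := by
    intro b _
    by_cases hb : b i ≠ 0
    · rw [if_pos hb, ← Finset.filter_ne' (supp b) i, Finset.sum_filter]
      refine Finset.sum_congr rfl fun m _ => ?_
      simp only [hb, and_true, ne_eq, not_false_eq_true]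
    · rw [if_neg hb]
      refine Finset.sum_eq_zero fun m _ => ?_
      rw [if_neg fun h0 => hb h0.2]
  have hR : ∀ w ∈ Wh k s, ∑ m, (if m ≠ i ∧ (up w m) i ≠ 0 then
        vv q κ (up w m) m * P (dn (up w m) m) else 0) =
      if w i ≠ 0 then (∑ m ∈ univ.erase i, vv q κ (up w m) m) * P w else 0 := by
    intro w _
    have h1 : ∀ m, (if m ≠ i ∧ (up w m) i ≠ 0 then
        vv q κ (up w m) m * P (dn (up w m) m) else 0) =
        if w i ≠ 0 then (if m ≠ i then vv q κ (up w m) m * P w else 0) else 0 := by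
      intro m
      by_cases hm : m ≠ i
      · rw [up_ne w (Ne.symm hm), dn_up]
        simp only [hm, true_and, ne_eq, not_false_eq_true, if_true]
      · simp only [hm, false_and, if_false, ite_self]
    simp only [h1]
    by_cases hw : w i ≠ 0
    · simp only [if_pos hw]
      rw [← Finset.filter_ne' univ i, Finset.sum_mul, Finset.sum_filter]
    · simp only [if_neg hw, Finset.sum_const_zero]
  rw [Finset.sum_congr rfl hL, Finset.sum_congr rfl hR] at h
  rw [Finset.sum_filter, Finset.sum_filter]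
  exact h

private theorem cons_uu {q : ℕ} {κ : ℝ} {b : Fin k → ℕ} {i : Fin k} (hb : b i ≠ 0) :
    uu q κ b i = ∑ m ∈ (supp b).erase i, vv q κ b m := by
  rw [uu, aa_eq_supp, ← Finset.add_sum_erase (supp b) _ (mem_supp.2 hb)]
  ring

private theorem cons_key {s q : ℕ} {κ : ℝ} (hq : 1 < q) (i : Fin k) (P : (Fin k → ℕ) → ℝ) :
    ∑ b ∈ (Wh k (s + 1)).filter (fun b => b i ≠ 0), uu q κ b i * (P b - P (dn b i))
      + ∑ b ∈ (Wh k (s + 1)).filter (fun b => b i ≠ 0),
          ∑ m ∈ (supp b).erase i, vv q κ b m * (P (dn b m) - P b)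
    = ∑ w ∈ (Wh k s).filter (fun w => w i ≠ 0), tau q κ i w * P w
      - ∑ w ∈ (Wh k s).filter (fun w => w i = 0), dw s q κ w * P w := by
  classical
  have e1 : ∑ b ∈ (Wh k (s + 1)).filter (fun b => b i ≠ 0), uu q κ b i * (P b - P (dn b i))
      + ∑ b ∈ (Wh k (s + 1)).filter (fun b => b i ≠ 0),
          ∑ m ∈ (supp b).erase i, vv q κ b m * (P (dn b m) - P b) =
      ∑ b ∈ (Wh k (s + 1)).filter (fun b => b i ≠ 0),
          ∑ m ∈ (supp b).erase i, vv q κ b m * P (dn b m) -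
        ∑ b ∈ (Wh k (s + 1)).filter (fun b => b i ≠ 0), uu q κ b i * P (dn b i) := by
    rw [← Finset.sum_add_distrib, ← Finset.sum_sub_distrib]
    refine Finset.sum_congr rfl fun b hb => ?_
    rw [Finset.mem_filter] at hb
    have h1 : ∑ m ∈ (supp b).erase i, vv q κ b m * (P (dn b m) - P b) =
        ∑ m ∈ (supp b).erase i, vv q κ b m * P (dn b m) - uu q κ b i * P b := by
      rw [cons_uu hb.2, Finset.sum_mul, ← Finset.sum_sub_distrib]
      exact Finset.sum_congr rfl fun m _ => by ring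
    rw [h1]
    ring
  rw [e1, cons_r2, cons_r3]
  have e2 : ∑ w ∈ Wh k s, uu q κ (up w i) i * P w =
      ∑ w ∈ (Wh k s).filter (fun w => w i ≠ 0), uu q κ (up w i) i * P w +
        ∑ w ∈ (Wh k s).filter (fun w => w i = 0), dw s q κ w * P w := by
    rw [← Finset.sum_filter_add_sum_filter_not (Wh k s) (fun w => w i ≠ 0)]
    congr 1
    have h2 : (Wh k s).filter (fun w => ¬ w i ≠ 0) = (Wh k s).filter (fun w => w i = 0) := by
      ext w
      simp only [Finset.mem_filter, not_not, ne_eq]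
    rw [h2]
    refine Finset.sum_congr rfl fun w hw => ?_
    rw [Finset.mem_filter] at hw
    rw [uu_up_eq_dw hq (mem_Wh.1 hw.1) hw.2]
  rw [e2]
  have e3 : ∑ w ∈ (Wh k s).filter (fun w => w i ≠ 0), tau q κ i w * P w =
      ∑ w ∈ (Wh k s).filter (fun w => w i ≠ 0), (∑ m ∈ univ.erase i, vv q κ (up w m) m) * P w -
        ∑ w ∈ (Wh k s).filter (fun w => w i ≠ 0), uu q κ (up w i) i * P w := by
    rw [← Finset.sum_sub_distrib]
    refine Finset.sum_congr rfl fun w _ => ?_
    rw [tau]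
    ring
  rw [e3]
  ring

theorem sum_tau {s q : ℕ} {κ : ℝ} (hq : 1 < q) (i : Fin k) :
    ∑ w ∈ (Wh k s).filter (fun w => w i ≠ 0), tau q κ i w
      = ∑ w ∈ (Wh k s).filter (fun w => w i = 0), dw s q κ w := by
  have h := cons_key (s := s) (κ := κ) hq i (fun _ => 1)
  simp only [sub_self, mul_zero, Finset.sum_const_zero, add_zero, mul_one] at h
  linarith

theorem conservation {s q : ℕ} {κ : ℝ} (hq : 1 < q) (i : Fin k) (P : (Fin k → ℕ) → ℝ) (P0 : ℝ) :
    ∑ w ∈ (Wh k s).filter (fun w => w i = 0), dw s q κ w * (P w - P0)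
      + ∑ b ∈ (Wh k (s + 1)).filter (fun b => b i ≠ 0), uu q κ b i * (P b - P (dn b i))
      + ∑ b ∈ (Wh k (s + 1)).filter (fun b => b i ≠ 0),
          ∑ m ∈ (supp b).erase i, vv q κ b m * (P (dn b m) - P b)
      + ∑ w ∈ (Wh k s).filter (fun w => w i ≠ 0), tau q κ i w * (P (tt s i) - P w)
    = (∑ w ∈ (Wh k s).filter (fun w => w i = 0), dw s q κ w) * (P (tt s i) - P0) := by
  have h := cons_key (s := s) (κ := κ) hq i P
  have ht := sum_tau (s := s) (κ := κ) hq i
  have e1 : ∑ w ∈ (Wh k s).filter (fun w => w i = 0), dw s q κ w * (P w - P0) =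
      ∑ w ∈ (Wh k s).filter (fun w => w i = 0), dw s q κ w * P w -
        (∑ w ∈ (Wh k s).filter (fun w => w i = 0), dw s q κ w) * P0 := by
    rw [Finset.sum_mul, ← Finset.sum_sub_distrib]
    exact Finset.sum_congr rfl fun w _ => by ring
  have e2 : ∑ w ∈ (Wh k s).filter (fun w => w i ≠ 0), tau q κ i w * (P (tt s i) - P w) =
      (∑ w ∈ (Wh k s).filter (fun w => w i ≠ 0), tau q κ i w) * P (tt s i) -
        ∑ w ∈ (Wh k s).filter (fun w => w i ≠ 0), tau q κ i w * P w := by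
    rw [Finset.sum_mul, ← Finset.sum_sub_distrib]
    exact Finset.sum_congr rfl fun w _ => by ring
  rw [e1, e2, ht]
  linear_combination h

end BcrL
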