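import Pool.Agent.Lib.MP_c1293d_lc.Low.Cons

/-!
Module CostSum: total cost of the fractional solution.

`tau_cost`: `conservation` with `P f = f i`, `P0 = 0`: `dw w * (0 - 0) = 0`, `P b - P (dn b i) = 1`,
`P (dn b m) - P b = 0` for `m ≠ i`, `P (tt s i) - P w = s - w i`:
`∑ uu b i + ∑ tau (s - w i) = s F_i`.
`sum_uu`: `∑_i ∑_{b, b i ≠ 0} uu b i = ∑_b ∑_{i ∈ supp b} (aa b - vv b i) = ∑_b (|supp b| - 1) aa b`.
`sum_dw`: from `∑_{w, w i = 0} dw w = 1` for all `i`: `∑_w (k - |supp w|) dw w = k`, `|supp w| ≤ s`, hence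
`(k - s) ∑_w dw w ≤ k`.
`cost_total`: `∑_b ∑_{m ∈ supp b} (vv + uu) = ∑_b |supp b| aa b`; the sum of all is
`∑_b |supp b| aa b + 2 s k - 2 ∑_b (|supp b| - 1) aa b + 2 s ∑ dw`.
-/

namespace BcrL

open Finset

variable {k : ℕ}

theorem tau_cost {s q : ℕ} {κ : ℝ} (hq : 1 < q) (i : Fin k)
    (h1 : ∑ w ∈ (Wh k s).filter (fun w => w i = 0), dw s q κ w = 1) :
    ∑ w ∈ (Wh k s).filter (fun w => w i ≠ 0), tau q κ i w * (2 * ((s : ℝ) - w i))
      = 2 * s - 2 * ∑ b ∈ (Wh k (s + 1)).filter (fun b => b i ≠ 0), uu q κ b i := by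
  have hc := conservation (s := s) (q := q) (κ := κ) hq i (fun f => (f i : ℝ)) 0
  rw [h1] at hc
  have e1 : ∑ w ∈ (Wh k s).filter (fun w => w i = 0), dw s q κ w * (((w i : ℕ) : ℝ) - 0) = 0 := by
    apply Finset.sum_eq_zero
    intro w hw
    rw [(Finset.mem_filter.1 hw).2]
    simp
  have e2 : ∑ b ∈ (Wh k (s + 1)).filter (fun b => b i ≠ 0),
      uu q κ b i * (((b i : ℕ) : ℝ) - ((dn b i i : ℕ) : ℝ)) =
      ∑ b ∈ (Wh k (s + 1)).filter (fun b => b i ≠ 0), uu q κ b i := by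
    apply Finset.sum_congr rfl
    intro b hb
    have hb0 := (Finset.mem_filter.1 hb).2
    have h2 : ((dn b i i : ℕ) : ℝ) = (b i : ℝ) - 1 := by
      rw [dn_same, Nat.cast_sub (Nat.one_le_iff_ne_zero.2 hb0), Nat.cast_one]
    rw [h2]
    ring
  have e3 : ∑ b ∈ (Wh k (s + 1)).filter (fun b => b i ≠ 0),
      ∑ m ∈ (supp b).erase i, vv q κ b m * (((dn b m i : ℕ) : ℝ) - ((b i : ℕ) : ℝ)) = 0 := by
    apply Finset.sum_eq_zero
    intro b _
    apply Finset.sum_eq_zero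
    intro m hm
    rw [dn_ne b (Finset.ne_of_mem_erase hm).symm, sub_self, mul_zero]
  have e4 : tt s i i = s := by
    unfold tt
    rw [Pi.single_eq_same]
  simp only [e1, e2, e3, e4] at hc
  have e5 : ∑ w ∈ (Wh k s).filter (fun w => w i ≠ 0), tau q κ i w * (2 * ((s : ℝ) - w i)) =
      2 * ∑ w ∈ (Wh k s).filter (fun w => w i ≠ 0), tau q κ i w * ((s : ℝ) - w i) := by
    rw [Finset.mul_sum]
    apply Finset.sum_congr rfl
    intro w _
    ring
  rw [e5]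
  linarith

theorem sum_uu {s q : ℕ} {κ : ℝ} :
    ∑ i : Fin k, ∑ b ∈ (Wh k (s + 1)).filter (fun b => b i ≠ 0), uu q κ b i
      = ∑ b ∈ Wh k (s + 1), (((supp b).card : ℝ) - 1) * aa q κ b := by
  have h1 : ∑ i : Fin k, ∑ b ∈ (Wh k (s + 1)).filter (fun b => b i ≠ 0), uu q κ b i =
      ∑ b ∈ Wh k (s + 1), ∑ i ∈ supp b, uu q κ b i := by
    apply Finset.sum_comm'
    intro i b
    rw [Finset.mem_filter, mem_supp]
    simp only [Finset.mem_univ, true_and]
    tauto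
  rw [h1]
  apply Finset.sum_congr rfl
  intro b _
  unfold uu
  rw [Finset.sum_sub_distrib, Finset.sum_const, nsmul_eq_mul, ← aa_eq_supp]
  ring

theorem sum_dw {s q : ℕ} {κ : ℝ} (hκ : 0 ≤ κ) (hq : 1 < q) (hsq : s ≤ 2 * q) (hk : s < k)
    (h1 : ∀ i : Fin k, ∑ w ∈ (Wh k s).filter (fun w => w i = 0), dw s q κ w = 1) :
    ∑ w ∈ Wh k s, dw s q κ w ≤ k / ((k : ℝ) - s) := by
  have hks : (0 : ℝ) < (k : ℝ) - s := by
    have : (s : ℝ) < k := by exact_mod_cast hk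
    linarith
  have h2 : ∑ i : Fin k, ∑ w ∈ (Wh k s).filter (fun w => w i = 0), dw s q κ w =
      ∑ w ∈ Wh k s, ∑ i ∈ (univ : Finset (Fin k)) \ supp w, dw s q κ w := by
    apply Finset.sum_comm'
    intro i w
    rw [Finset.mem_filter, Finset.mem_sdiff, mem_supp]
    simp only [Finset.mem_univ, true_and]
    tauto
  have h3 : ∑ i : Fin k, ∑ w ∈ (Wh k s).filter (fun w => w i = 0), dw s q κ w = k := by
    rw [Finset.sum_congr rfl fun i _ => h1 i]
    simp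
  rw [le_div_iff₀ hks, Finset.sum_mul, ← h3, h2]
  apply Finset.sum_le_sum
  intro w hw
  rw [Finset.sum_const, nsmul_eq_mul, mul_comm]
  apply mul_le_mul_of_nonneg_right _ (dw_nonneg hκ hq hsq w)
  have h4 := card_supp_le (mem_Wh.1 hw)
  have h5 : ((univ : Finset (Fin k)) \ supp w).card + (supp w).card = k := by
    rw [Finset.card_sdiff_add_card_eq_card (Finset.subset_univ _), Finset.card_univ,
      Fintype.card_fin]
  have h6 : (((univ : Finset (Fin k)) \ supp w).card : ℝ) + ((supp w).card : ℝ) = k := by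
    exact_mod_cast h5
  have h7 : ((supp w).card : ℝ) ≤ s := by exact_mod_cast h4
  linarith

theorem cost_total {s q : ℕ} {κ : ℝ} (hκ : 0 ≤ κ) (hq : 1 < q) (hsq : s ≤ 2 * q) (hk : s < k)
    (h1 : ∀ i : Fin k, ∑ w ∈ (Wh k s).filter (fun w => w i = 0), dw s q κ w = 1) :
    ∑ b ∈ Wh k (s + 1), ∑ m ∈ supp b, (vv q κ b m + uu q κ b m)
      + ∑ i : Fin k, ∑ w ∈ (Wh k s).filter (fun w => w i ≠ 0),
          tau q κ i w * (2 * ((s : ℝ) - w i))
      + ∑ w ∈ Wh k s, dw s q κ w * (2 * s)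
    ≤ 2 * s * k - ∑ b ∈ Wh k (s + 1), (((supp b).card : ℝ) - 2) * aa q κ b
      + 2 * s * (k / ((k : ℝ) - s)) := by
  have e1 : ∑ b ∈ Wh k (s + 1), ∑ m ∈ supp b, (vv q κ b m + uu q κ b m) =
      ∑ b ∈ Wh k (s + 1), ((supp b).card : ℝ) * aa q κ b := by
    apply Finset.sum_congr rfl
    intro b _
    have : ∀ m ∈ supp b, vv q κ b m + uu q κ b m = aa q κ b := by
      intro m _
      unfold uu
      ring
    rw [Finset.sum_congr rfl this, Finset.sum_const, nsmul_eq_mul]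
  have e2 : ∑ i : Fin k, ∑ w ∈ (Wh k s).filter (fun w => w i ≠ 0),
      tau q κ i w * (2 * ((s : ℝ) - w i)) =
      2 * s * k - 2 * ∑ b ∈ Wh k (s + 1), (((supp b).card : ℝ) - 1) * aa q κ b := by
    have h3 : ∀ U : Fin k → ℝ, ∑ i : Fin k, (2 * (s : ℝ) - 2 * U i) =
        2 * s * k - 2 * ∑ i, U i := by
      intro U
      rw [Finset.sum_sub_distrib, Finset.mul_sum, Finset.sum_const, Finset.card_univ,
        Fintype.card_fin, nsmul_eq_mul]
      ring
    rw [← sum_uu, Finset.sum_congr rfl fun i _ => tau_cost hq i (h1 i)]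
    exact h3 _
  have e3 : ∑ w ∈ Wh k s, dw s q κ w * (2 * s) ≤ 2 * s * (k / ((k : ℝ) - s)) := by
    rw [← Finset.sum_mul, mul_comm]
    exact mul_le_mul_of_nonneg_left (sum_dw hκ hq hsq hk h1) (by positivity)
  rw [e1, e2]
  have e4 : ∑ b ∈ Wh k (s + 1), ((supp b).card : ℝ) * aa q κ b +
      (2 * s * k - 2 * ∑ b ∈ Wh k (s + 1), (((supp b).card : ℝ) - 1) * aa q κ b) =
      2 * s * k - ∑ b ∈ Wh k (s + 1), (((supp b).card : ℝ) - 2) * aa q κ b := by
    have h2 : ∑ b ∈ Wh k (s + 1), (((supp b).card : ℝ) - 2) * aa q κ b =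
        2 * ∑ b ∈ Wh k (s + 1), (((supp b).card : ℝ) - 1) * aa q κ b -
          ∑ b ∈ Wh k (s + 1), ((supp b).card : ℝ) * aa q κ b := by
      rw [Finset.mul_sum, ← Finset.sum_sub_distrib]
      apply Finset.sum_congr rfl
      intro b _
      ring
    rw [h2]
    ring
  rw [e4]
  linarith

end BcrL
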