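import Pool.Agent.Lib.MP_c1293d_lc.Low.Reindex

/-!
Module Count: number of vectors with given support `J`, `|J| = m ≥ 2`, coordinates at most `q`, total `n`.

PROOF. (a) `card_comp`: the number of `f : Fin k → ℕ` with `supp f = J` and total `n` (`n ≥ 1`, `m ≥ 1`) is
`(n-1).choose (m-1)`: induction on `J` (Finset.induction_on / on `m`): choose `f i` for a given `i ∈ J`:
`∑_{a=1}^{n-1} (n-a-1).choose (m-2) = (n-1).choose (m-1)` (hockey stick `Nat.sum_range_choose...`), or a
bijection with `Finset.piAntidiag J (n - m)` (subtract `1` on `J`) / `Finset.Nat.antidiagonalTuple`.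
(b) the vectors with `f l > q` for a given `l ∈ J` are in bijection with the vectors of support `J` and total
`n - q` (subtract `q` at `l`), so their number is `(n-1-q).choose (m-1)` (this is also correct, `0`, if
`n ≤ q` since `m ≥ 2`).
(c) for `n < 2 q + 2` there is at most one `l` with `f l > q`, so
`#{supp = J, total n} = #{... , f ≤ q} + ∑_{l ∈ J} #{..., f l > q}`.
-/

namespace BcrL

open Finset

variable {k : ℕ}

private theorem mem_cnt {J : Finset (Fin k)} {n : ℕ} {f : Fin k → ℕ} :
    f ∈ (Wh k n).filter (fun f => supp f = J) ↔ ∑ i, f i = n ∧ ∀ i, f i ≠ 0 ↔ i ∈ J := by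
  rw [mem_filter, mem_Wh, Finset.ext_iff]
  constructor
  · rintro ⟨h1, h2⟩
    exact ⟨h1, fun i => by rw [← h2 i, mem_supp]⟩
  · rintro ⟨h1, h2⟩
    exact ⟨h1, fun i => by rw [mem_supp, h2 i]⟩

private theorem sum_upd (f : Fin k → ℕ) (i : Fin k) (a : ℕ) :
    ∑ l, Function.update f i a l + f i = ∑ l, f l + a := by
  rw [sum_update_of_mem (mem_univ i), ← sum_sdiff (subset_univ {i}) (f := f), sum_singleton]
  ring

private theorem rec_cnt {J : Finset (Fin k)} {i : Fin k} (hi : i ∉ J) (n : ℕ) :
    ((Wh k n).filter (fun f => supp f = insert i J)).card =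
      ∑ b ∈ range n, ((Wh k b).filter (fun f => supp f = J)).card := by
  rw [card_eq_sum_card_fiberwise (f := fun f : Fin k → ℕ => n - f i) (t := range n)]
  · refine sum_congr rfl fun b hb => ?_
    rw [mem_range] at hb
    refine card_nbij' (fun f => Function.update f i 0) (fun f => Function.update f i (n - b))
      ?_ ?_ ?_ ?_
    · intro f hf
      rw [mem_coe, mem_filter, mem_cnt] at hf
      obtain ⟨⟨h1, h2⟩, h3⟩ := hf
      have h4 := sum_upd f i 0
      have h5 : f i ≤ n := by
        rw [← h1]; exact single_le_sum (fun _ _ => Nat.zero_le _) (mem_univ i)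
      rw [mem_coe, mem_cnt]
      beta_reduce
      refine ⟨by omega, fun l => ?_⟩
      by_cases hl : l = i
      · subst hl
        simp [hi]
      · rw [Function.update_of_ne hl, h2 l, mem_insert]
        simp [hl]
    · intro f hf
      rw [mem_coe, mem_cnt] at hf
      obtain ⟨h1, h2⟩ := hf
      have h3 : f i = 0 := by
        by_contra h
        exact hi ((h2 i).1 h)
      have h4 := sum_upd f i (n - b)
      rw [mem_coe, mem_filter, mem_cnt]
      beta_reduce
      refine ⟨⟨by omega, fun l => ?_⟩, ?_⟩
      · by_cases hl : l = i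
        · subst hl
          rw [Function.update_self]
          simp
          omega
        · rw [Function.update_of_ne hl, h2 l, mem_insert]
          simp [hl]
      · rw [Function.update_self]
        omega
    · intro f hf
      rw [mem_coe, mem_filter, mem_cnt] at hf
      obtain ⟨⟨h1, h2⟩, h3⟩ := hf
      have h5 : f i ≤ n := by
        rw [← h1]; exact single_le_sum (fun _ _ => Nat.zero_le _) (mem_univ i)
      have h6 : n - b = f i := by omega
      simp only [Function.update_idem]
      rw [h6, Function.update_eq_self]
    · intro f hf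
      rw [mem_coe, mem_cnt] at hf
      obtain ⟨h1, h2⟩ := hf
      have h3 : f i = 0 := by
        by_contra h
        exact hi ((h2 i).1 h)
      simp only [Function.update_idem]
      rw [← h3, Function.update_eq_self]
  · intro f hf
    rw [mem_coe, mem_cnt] at hf
    obtain ⟨h1, h2⟩ := hf
    have h3 : f i ≠ 0 := (h2 i).2 (mem_insert_self _ _)
    have h5 : f i ≤ n := by
      rw [← h1]; exact single_le_sum (fun _ _ => Nat.zero_le _) (mem_univ i)
    rw [mem_coe, mem_range]
    beta_reduce
    omega

private theorem cnt_empty (n : ℕ) :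
    ((Wh k n).filter (fun f => supp f = ∅)).card = if n = 0 then 1 else 0 := by
  split_ifs with h
  · subst h
    rw [card_eq_one]
    refine ⟨0, ?_⟩
    ext f
    rw [mem_cnt, mem_singleton]
    constructor
    · rintro ⟨-, h2⟩
      funext i
      by_contra h
      exact notMem_empty i ((h2 i).1 h)
    · rintro rfl
      simp
  · rw [card_eq_zero, eq_empty_iff_forall_notMem]
    intro f hf
    rw [mem_cnt] at hf
    obtain ⟨h1, h2⟩ := hf
    apply h
    rw [← h1]
    refine sum_eq_zero fun i _ => ?_
    by_contra h
    exact notMem_empty i ((h2 i).1 h)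

private theorem cnt_zero {J : Finset (Fin k)} (hJ : J.Nonempty) :
    ((Wh k 0).filter (fun f => supp f = J)).card = 0 := by
  rw [card_eq_zero, eq_empty_iff_forall_notMem]
  intro f hf
  rw [mem_cnt] at hf
  obtain ⟨h1, h2⟩ := hf
  obtain ⟨i, hi⟩ := hJ
  rw [sum_eq_zero_iff] at h1
  exact (h2 i).2 hi (h1 i (mem_univ i))

private theorem hockey (N j : ℕ) : ∑ b ∈ range N, b.choose j = N.choose (j + 1) := by
  induction N with
  | zero => simp
  | succ N ih => rw [sum_range_succ, ih, Nat.choose_succ_succ' N j, add_comm]

theorem card_comp (J : Finset (Fin k)) (hJ : 1 ≤ J.card) {n : ℕ} (hn : 1 ≤ n) :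
    ((Wh k n).filter (fun f => supp f = J)).card = (n - 1).choose (J.card - 1) := by
  induction J using Finset.induction_on generalizing n with
  | empty => simp at hJ
  | insert i J hi ih =>
    rw [rec_cnt hi, card_insert_of_notMem hi, Nat.add_sub_cancel]
    obtain ⟨m, rfl⟩ : ∃ m, n = m + 1 := ⟨n - 1, by omega⟩
    rw [Nat.add_sub_cancel, sum_range_succ']
    rcases J.eq_empty_or_nonempty with rfl | hne
    · simp only [cnt_empty]
      simp
    · have hJ1 : 1 ≤ J.card := hne.card_pos
      rw [cnt_zero hne, add_zero]
      have : ∀ b ∈ range m, ((Wh k (b + 1)).filter (fun f => supp f = J)).card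
          = b.choose (J.card - 1) := fun b _ => by
        rw [ih hJ1 (by omega), Nat.add_sub_cancel]
      rw [sum_congr rfl this, hockey]
      congr 1
      omega

private theorem card_big {J : Finset (Fin k)} (hJ : 2 ≤ J.card) {n q : ℕ} {l : Fin k}
    (hl : l ∈ J) :
    (((Wh k n).filter (fun f => supp f = J)).filter (fun f => q < f l)).card =
      (n - 1 - q).choose (J.card - 1) := by
  rcases Nat.lt_or_ge q n with hqn | hqn
  · have h1 := card_comp J (by omega) (n := n - q) (by omega)
    have e : n - q - 1 = n - 1 - q := by omega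
    rw [e] at h1
    rw [← h1]
    refine card_nbij' (fun f => Function.update f l (f l - q))
      (fun f => Function.update f l (f l + q)) ?_ ?_ ?_ ?_
    · intro f hf
      rw [mem_coe, mem_filter, mem_cnt] at hf
      obtain ⟨⟨h1, h2⟩, h3⟩ := hf
      have h4 := sum_upd f l (f l - q)
      rw [mem_coe, mem_cnt]
      beta_reduce
      refine ⟨by omega, fun i => ?_⟩
      by_cases hi : i = l
      · subst hi
        rw [Function.update_self]
        simp only [hl, iff_true]
        omega
      · rw [Function.update_of_ne hi, h2 i]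
    · intro f hf
      rw [mem_coe, mem_cnt] at hf
      obtain ⟨h1, h2⟩ := hf
      have h3 : f l ≠ 0 := (h2 l).2 hl
      have h4 := sum_upd f l (f l + q)
      rw [mem_coe, mem_filter, mem_cnt]
      beta_reduce
      refine ⟨⟨by omega, fun i => ?_⟩, ?_⟩
      · by_cases hi : i = l
        · subst hi
          rw [Function.update_self]
          simp only [hl, iff_true]
          omega
        · rw [Function.update_of_ne hi, h2 i]
      · rw [Function.update_self]
        omega
    · intro f hf
      rw [mem_coe, mem_filter, mem_cnt] at hf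
      obtain ⟨-, h3⟩ := hf
      simp only [Function.update_idem, Function.update_self]
      have : f l - q + q = f l := by omega
      rw [this, Function.update_eq_self]
    · intro f hf
      simp only [Function.update_idem, Function.update_self]
      have : f l + q - q = f l := by omega
      rw [this, Function.update_eq_self]
  · have e : n - 1 - q = 0 := by omega
    rw [e, Nat.choose_eq_zero_of_lt (by omega), card_eq_zero, eq_empty_iff_forall_notMem]
    intro f hf
    rw [mem_filter, mem_cnt] at hf
    obtain ⟨⟨h1, h2⟩, h3⟩ := hf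
    have h5 : f l ≤ n := by
      rw [← h1]; exact single_le_sum (fun _ _ => Nat.zero_le _) (mem_univ l)
    omega

theorem card_le_q (J : Finset (Fin k)) (hJ : 2 ≤ J.card) {n q : ℕ} (hn : 1 ≤ n)
    (hnq : n < 2 * q + 2) :
    (((Wh k n).filter (fun f => supp f = J ∧ ∀ l, f l ≤ q)).card : ℝ) = NN q J.card n := by
  classical
  have h1 := card_comp J (by omega) hn
  have h2 : (Wh k n).filter (fun f => supp f = J ∧ ∀ l, f l ≤ q)
      = ((Wh k n).filter (fun f => supp f = J)).filter (fun f => ∀ l, f l ≤ q) := by
    rw [filter_filter]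
  have h3 := card_filter_add_card_filter_not (s := (Wh k n).filter (fun f => supp f = J))
    (fun f => ∀ l, f l ≤ q)
  have h4 : ((Wh k n).filter (fun f => supp f = J)).filter (fun f => ¬ ∀ l, f l ≤ q)
      = J.biUnion fun l => ((Wh k n).filter (fun f => supp f = J)).filter (fun f => q < f l) := by
    ext f
    simp only [mem_filter, mem_biUnion]
    constructor
    · rintro ⟨hf, hq⟩
      push Not at hq
      obtain ⟨l, hl⟩ := hq
      refine ⟨l, ?_, hf, hl⟩
      rw [← hf.2, mem_supp]
      omega
    · rintro ⟨l, -, hf, hl⟩
      refine ⟨hf, fun hall => ?_⟩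
      have := hall l
      omega
  have h5 : (((Wh k n).filter (fun f => supp f = J)).filter (fun f => ¬ ∀ l, f l ≤ q)).card
      = J.card * (n - 1 - q).choose (J.card - 1) := by
    rw [h4, card_biUnion]
    · rw [sum_congr rfl fun l hl => card_big hJ (n := n) (q := q) hl, sum_const, smul_eq_mul]
    · intro l _ l' _ hll'
      change Disjoint (filter _ _) (filter _ _)
      rw [disjoint_left]
      intro f hf hf'
      rw [mem_filter, mem_cnt] at hf hf'
      have h6 : f l + f l' ≤ n := by
        rw [← hf.1.1, ← sum_pair hll']
        exact sum_le_sum_of_subset (subset_univ _)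
      omega
  rw [h5, ← h2, h1] at h3
  unfold NN
  rw [← h3]
  push_cast
  ring

end BcrL
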