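import Pool.Agent.Lib.MP_c1293d_lc.Defs

/-!
The white/black instances and their fractional solution: definitions.

Parameters: `k` terminals, `s`, `q` natural numbers, `κ` a real normalisation constant.
A white vector has coordinate sum `s`, a black vector has coordinate sum `s + 1`.
-/

namespace BcrL

open Finset

variable {k : ℕ}

/-- sum of the coordinates in `A` -/
def mA (f : Fin k → ℕ) (A : Finset (Fin k)) : ℕ := ∑ i ∈ A, f i

/-- the set function attached to a vector -/
noncomputable def gg (s : ℕ) (f : Fin k → ℕ) (A : Finset (Fin k)) : ℝ :=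
  if ∑ i, f i = s then (mA f A : ℝ)
  else if ∑ i, f i = s + 1 then
    (if mA f A = 0 then 0 else if mA f A = s + 1 then (s : ℝ) else (mA f A : ℝ) - 1 / 2)
  else 0

/-- the distance: twice the sup distance of the set functions -/
noncomputable def dd (s : ℕ) (f f' : Fin k → ℕ) : ℝ :=
  2 * (univ : Finset (Finset (Fin k))).sup' ⟨∅, mem_univ _⟩ (fun A => |gg s f A - gg s f' A|)

/-- the terminals -/
def tt (s : ℕ) (i : Fin k) : Fin k → ℕ := Pi.single i s

/-- support -/
def supp (f : Fin k → ℕ) : Finset (Fin k) := univ.filter fun i => f i ≠ 0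

/-- one unit more at `i` -/
def up (f : Fin k → ℕ) (i : Fin k) : Fin k → ℕ := Function.update f i (f i + 1)

/-- one unit less at `i` -/
def dn (f : Fin k → ℕ) (i : Fin k) : Fin k → ℕ := Function.update f i (f i - 1)

/-- the weights -/
noncomputable def CC (k q : ℕ) (κ : ℝ) (j : ℕ) : ℝ :=
  κ / (((j : ℝ) - 1) * ((q : ℝ) - 1) ^ j * ((k - 1).choose (j - 1) : ℝ))

/-- active black vectors -/
def act (q : ℕ) (b : Fin k → ℕ) : Prop := (∀ l, b l ≤ q) ∧ 3 ≤ (supp b).card

open Classical in
/-- capacity of the arc from `b` to `b - e_m` -/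
noncomputable def vv (q : ℕ) (κ : ℝ) (b : Fin k → ℕ) (m : Fin k) : ℝ :=
  if act q b ∧ b m ≠ 0 then CC k q κ (supp b).card * ((q : ℝ) - (b m : ℝ)) else 0

/-- total capacity out of `b` -/
noncomputable def aa (q : ℕ) (κ : ℝ) (b : Fin k → ℕ) : ℝ := ∑ m, vv q κ b m

/-- capacity of the arc from `b - e_m` to `b` -/
noncomputable def uu (q : ℕ) (κ : ℝ) (b : Fin k → ℕ) (m : Fin k) : ℝ := aa q κ b - vv q κ b m

open Classical in
/-- capacity of the arc from the root to the white vector `w` -/
noncomputable def dw (s q : ℕ) (κ : ℝ) (w : Fin k → ℕ) : ℝ :=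
  if (∀ l, w l ≤ q) ∧ 2 ≤ (supp w).card then
    CC k q κ ((supp w).card + 1) * (((supp w).card : ℝ) * q - s) else 0

/-- capacity of the arc from the white vector `w` to the terminal `i` -/
noncomputable def tau (q : ℕ) (κ : ℝ) (i : Fin k) (w : Fin k → ℕ) : ℝ :=
  ∑ m ∈ univ.erase i, vv q κ (up w m) m - uu q κ (up w i) i

/-- white vectors -/
def Wh (k s : ℕ) : Finset (Fin k → ℕ) := piAntidiag univ s

/-- the number of vectors with support exactly `m` given coordinates, coordinates at most `q` and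
sum `n` (for `n < 2 q + 2`) -/
def NN (q m n : ℕ) : ℝ :=
  ((n - 1).choose (m - 1) : ℝ) - (m : ℝ) * ((n - 1 - q).choose (m - 1) : ℝ)

/-- the normalisation -/
noncomputable def DD (s q : ℕ) : ℝ :=
  ((q : ℝ) - 1 + ((q : ℝ) / ((q : ℝ) - 1)) ^ (s - 1 - q)) / ((q : ℝ) - 1) ^ 2

end BcrL
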