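import Pool.Agent.Lib.MP_c1293d_lc.Low.Defs

/-!
Module FlowLP: a family of arcs with capacities through which one unit can be sent from the root to
every other terminal bounds the bidirected cut relaxation (complete graph).

The flow condition is stated with test functions `p`: `∑ a, φ a (p (dst a) - p (src a)) = p t - p r`
for all `p` means: `φ` is a unit flow from `r` to `t`.

PROOF. `x u v := if u = v then 0 else ∑ a, if src a = u ∧ dst a = v then cap a else 0`. Cut condition for
`S` with `r ∉ S`, `t ∈ S ∩ R`: take `p = indicator of S`: `1 = ∑ a, φ a (1_S(dst a) - 1_S(src a))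
≤ ∑ a, φ a 1[dst a ∈ S, src a ∉ S] ≤ ∑ a, cap a 1[dst a ∈ S, src a ∉ S] = ∑ u ∈ Sᶜ, ∑ v ∈ S, x u v`
(on this range `u ≠ v`). Cost: `∑ u, ∑ v, c s(u,v) x u v ≤ ∑ a, cap a c s(src a, dst a)` (the loops are
dropped, `c ≥ 0`). `LP` is an infimum of a set bounded below by `0` (`c ≥ 0`, `x ≥ 0`): `csInf_le`.
-/

namespace BcrL

open Finset Bcr3

theorem lp_le_flow {V : Type} [Fintype V] [DecidableEq V] {c : Sym2 V → ℝ} (hc : ∀ e, 0 ≤ c e)
    {R : Finset V} {r : V} {α : Type} [Fintype α] (src dst : α → V) (cap : α → ℝ)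
    (hcap : ∀ a, 0 ≤ cap a)
    (hflow : ∀ t ∈ R, t ≠ r → ∃ φ : α → ℝ, (∀ a, 0 ≤ φ a) ∧ (∀ a, φ a ≤ cap a) ∧
      ∀ p : V → ℝ, ∑ a, φ a * (p (dst a) - p (src a)) = p t - p r) :
    LP (⊤ : SimpleGraph V) c R r ≤ ∑ a, cap a * c s(src a, dst a) := by
  classical
  set y : V → V → ℝ := fun u v => ∑ a, if src a = u ∧ dst a = v then cap a else 0 with hy
  set x : V → V → ℝ := fun u v => if u = v then 0 else y u v with hx
  have hy0 : ∀ u v, 0 ≤ y u v := by
    intro u v
    refine Finset.sum_nonneg fun a _ => ?_
    split_ifs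
    · exact hcap a
    · exact le_rfl
  have hx0 : ∀ u v, 0 ≤ x u v := by
    intro u v
    simp only [hx]
    split_ifs
    · exact le_rfl
    · exact hy0 u v
  have hxy : ∀ u v, x u v ≤ y u v := by
    intro u v
    simp only [hx]
    split_ifs
    · exact hy0 u v
    · exact le_rfl
  have hfeas : Feasible (⊤ : SimpleGraph V) R r x := by
    refine ⟨hx0, ?_, ?_⟩
    · intro u v huv
      have : u = v := by
        by_contra h
        exact huv h
      simp only [hx, if_pos this]
    · intro S hrS hSR
      obtain ⟨t, ht⟩ := hSR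
      rw [Finset.mem_inter] at ht
      have htr : t ≠ r := by
        rintro rfl
        exact hrS ht.1
      obtain ⟨φ, hφ0, hφc, hφ⟩ := hflow t ht.2 htr
      have h1 := hφ (fun v => if v ∈ S then 1 else 0)
      simp only [if_pos ht.1, if_neg hrS] at h1
      have h2 : (∑ a, φ a * ((if dst a ∈ S then (1 : ℝ) else 0) - (if src a ∈ S then 1 else 0))) ≤
          ∑ a, if src a ∈ Sᶜ ∧ dst a ∈ S then cap a else 0 := by
        refine Finset.sum_le_sum fun a _ => ?_
        simp only [Finset.mem_compl]
        by_cases h3 : dst a ∈ S <;> by_cases h4 : src a ∈ S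
        · simp [h3, h4]
        · simp only [h3, h4, if_true, if_false, not_false_eq_true, and_self]
          linarith [hφc a]
        · simp only [h3, h4, if_true, if_false, not_true_eq_false, and_self]
          linarith [hφ0 a]
        · simp [h3, h4]
      have h5 : ∑ u ∈ Sᶜ, ∑ v ∈ S, x u v = ∑ a, if src a ∈ Sᶜ ∧ dst a ∈ S then cap a else 0 := by
        have h6 : ∑ u ∈ Sᶜ, ∑ v ∈ S, x u v = ∑ u ∈ Sᶜ, ∑ v ∈ S, y u v := by
          refine Finset.sum_congr rfl fun u hu => Finset.sum_congr rfl fun v hv => ?_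
          have : u ≠ v := by
            rintro rfl
            exact (Finset.mem_compl.1 hu) hv
          simp only [hx, if_neg this]
        rw [h6]
        simp only [hy]
        have h7 : ∀ u ∈ Sᶜ, ∑ v ∈ S, ∑ a, (if src a = u ∧ dst a = v then cap a else 0) =
            ∑ a, if src a = u ∧ dst a ∈ S then cap a else 0 := by
          intro u _
          rw [Finset.sum_comm]
          refine Finset.sum_congr rfl fun a _ => ?_
          by_cases h8 : src a = u
          · simp only [h8, true_and]
            rw [Finset.sum_ite_eq]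
          · simp [h8]
        rw [Finset.sum_congr rfl h7, Finset.sum_comm]
        refine Finset.sum_congr rfl fun a _ => ?_
        by_cases h8 : dst a ∈ S
        · simp only [h8, and_true]
          rw [Finset.sum_ite_eq]
        · simp [h8]
      rw [h5]
      linarith
  have hcost : ∑ u, ∑ v, c s(u, v) * x u v ≤ ∑ a, cap a * c s(src a, dst a) := by
    have h1 : ∑ u, ∑ v, c s(u, v) * x u v ≤ ∑ u, ∑ v, c s(u, v) * y u v :=
      Finset.sum_le_sum fun u _ => Finset.sum_le_sum fun v _ =>
        mul_le_mul_of_nonneg_left (hxy u v) (hc _)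
    refine h1.trans (le_of_eq ?_)
    simp only [hy, Finset.mul_sum]
    have h7 : ∀ u, ∑ v, ∑ a, c s(u, v) * (if src a = u ∧ dst a = v then cap a else 0) =
        ∑ a, if src a = u then c s(u, dst a) * cap a else 0 := by
      intro u
      rw [Finset.sum_comm]
      refine Finset.sum_congr rfl fun a _ => ?_
      by_cases h8 : src a = u
      · simp only [h8, true_and, if_true, mul_ite, mul_zero]
        rw [Finset.sum_ite_eq]
        simp
      · simp [h8]
    rw [Finset.sum_congr rfl fun u _ => h7 u, Finset.sum_comm]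
    refine Finset.sum_congr rfl fun a _ => ?_
    rw [Finset.sum_ite_eq]
    simp [mul_comm]
  refine le_trans (csInf_le ⟨0, ?_⟩ ⟨x, hfeas, rfl⟩) hcost
  rintro w ⟨x', hx', rfl⟩
  exact Finset.sum_nonneg fun u _ => Finset.sum_nonneg fun v _ => mul_nonneg (hc _) (hx'.nonneg u v)

end BcrL
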