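import Pool.Agent.Lib.MP_c1293d_lc.Low.Defs

/-!
Module GG: properties of the set functions `gg` and of the distance `dd`.

`gg_superadd`: if the total is `s`: equality (`mA` is additive on disjoint sets). If the total is `s+1`:
if one of `mA f A`, `mA f B` is `0`, the union has the `mA` of the other one; otherwise both are `≥ 1`
hence both `≤ s`, the left side is `mA f A + mA f B - 1` and the right side is this if the union has
`mA = s + 1`, and this plus `1/2` otherwise. If the total is neither, all is `0`.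
`dd_black_white`: `f = b`, `f' = dn b m`: total `s + 1` and `s`, `mA (dn b m) A = mA b A - [m ∈ A]`; for
every `A` the difference of the set functions is `0` or `± 1/2`: `mA b A = 0`: then `m ∉ A` and both are
`0`; `mA b A = s + 1`: then `m ∈ A` (the complement has `mA = 0`) and both are `s`; otherwise `- 1/2` or
`+ 1/2`. `dd_white_term`: `|w(A) - s 1[i ∈ A]| ≤ s - w_i` (if `i ∉ A`: `w(A) ≤ s - w_i`; if `i ∈ A`: `w(A) ≥ w_i`).
-/

namespace BcrL

open Finset

variable {k : ℕ}

theorem mA_univ (f : Fin k → ℕ) : mA f univ = ∑ i, f i := rfl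

private theorem gg_mA_union (f : Fin k → ℕ) {A B : Finset (Fin k)} (h : Disjoint A B) :
    mA f (A ∪ B) = mA f A + mA f B := Finset.sum_union h

private theorem gg_mA_le (f : Fin k → ℕ) (A : Finset (Fin k)) : mA f A ≤ ∑ i, f i :=
  Finset.sum_le_sum_of_subset (Finset.subset_univ A)

private theorem gg_mA_dn (b : Fin k → ℕ) {m : Fin k} (hm : b m ≠ 0) (A : Finset (Fin k)) :
    mA (dn b m) A + (if m ∈ A then 1 else 0) = mA b A := by
  unfold mA dn
  by_cases h : m ∈ A
  · rw [if_pos h, ← Finset.add_sum_erase A _ h, ← Finset.add_sum_erase A b h]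
    have h1 : ∑ x ∈ A.erase m, Function.update b m (b m - 1) x = ∑ x ∈ A.erase m, b x := by
      refine Finset.sum_congr rfl fun x hx => ?_
      rw [Function.update_of_ne (Finset.ne_of_mem_erase hx)]
    rw [h1, Function.update_self]
    omega
  · rw [if_neg h, add_zero]
    refine Finset.sum_congr rfl fun x hx => ?_
    rw [Function.update_of_ne (fun hxm => h (by rw [← hxm]; exact hx))]

private theorem gg_sum_dn (b : Fin k → ℕ) {m : Fin k} (hm : b m ≠ 0) :
    ∑ i, dn b m i + 1 = ∑ i, b i := by
  have := gg_mA_dn b hm univ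
  rw [if_pos (mem_univ m)] at this
  exact this

theorem gg_empty (s : ℕ) (f : Fin k → ℕ) : gg s f ∅ = 0 := by
  simp [gg, mA]

theorem gg_superadd (s : ℕ) (f : Fin k → ℕ) {A B : Finset (Fin k)} (h : Disjoint A B) :
    gg s f A + gg s f B ≤ gg s f (A ∪ B) := by
  have hu := gg_mA_union f h
  have hAB := gg_mA_le f (A ∪ B)
  by_cases hs : ∑ i, f i = s
  · simp only [gg, if_pos hs, hu]
    push_cast
    exact le_rfl
  by_cases hs1 : ∑ i, f i = s + 1
  · simp only [gg, if_neg hs, if_pos hs1]
    by_cases a0 : mA f A = 0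
    · have hu' : mA f (A ∪ B) = mA f B := by omega
      rw [if_pos a0, hu', zero_add]
    · by_cases b0 : mA f B = 0
      · have hu' : mA f (A ∪ B) = mA f A := by omega
        rw [if_pos b0, hu', add_zero]
      · rw [if_neg a0, if_neg (show ¬ mA f A = s + 1 by omega), if_neg b0,
          if_neg (show ¬ mA f B = s + 1 by omega), if_neg (show ¬ mA f (A ∪ B) = 0 by omega)]
        have huR : (mA f (A ∪ B) : ℝ) = mA f A + mA f B := by rw [hu]; push_cast; rfl
        split_ifs with h1
        · have h2 : (mA f (A ∪ B) : ℝ) = s + 1 := by rw [h1]; push_cast; rfl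
          linarith
        · linarith
  · simp only [gg, if_neg hs, if_neg hs1]
    linarith

theorem gg_univ_le (s : ℕ) (f : Fin k → ℕ) : gg s f univ ≤ s := by
  unfold gg
  rw [mA_univ]
  split_ifs with h1 h2 h3
  · rw [h1]
  · positivity
  · exact le_rfl
  · positivity

theorem gg_tt (s : ℕ) (i : Fin k) : gg s (tt s i) {i} = s := by
  have h1 : ∑ j, tt s i j = s := by simp [tt]
  rw [gg, if_pos h1]
  simp [mA, tt]

theorem gg_tt_ne (s : ℕ) {i j : Fin k} (h : j ≠ i) : gg s (tt s i) {j} = 0 := by
  have h1 : ∑ j, tt s i j = s := by simp [tt]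
  rw [gg, if_pos h1, mA, Finset.sum_singleton, tt, Pi.single_eq_of_ne h]
  exact Nat.cast_zero

theorem dd_nonneg (s : ℕ) (f f' : Fin k → ℕ) : 0 ≤ dd s f f' := by
  unfold dd
  refine mul_nonneg zero_le_two ?_
  exact le_trans (abs_nonneg _) (Finset.le_sup' (fun A => |gg s f A - gg s f' A|) (mem_univ ∅))

theorem dd_comm (s : ℕ) (f f' : Fin k → ℕ) : dd s f f' = dd s f' f := by
  unfold dd
  simp only [abs_sub_comm (gg s f _) (gg s f' _)]

theorem gg_sub_le_dd (s : ℕ) (f f' : Fin k → ℕ) (A : Finset (Fin k)) :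
    2 * (gg s f A - gg s f' A) ≤ dd s f f' := by
  unfold dd
  refine mul_le_mul_of_nonneg_left ?_ zero_le_two
  exact le_trans (le_abs_self _) (Finset.le_sup' (fun A => |gg s f A - gg s f' A|) (mem_univ A))

theorem dd_le_of (s : ℕ) (f f' : Fin k → ℕ) (C : ℝ) (h : ∀ A, |gg s f A - gg s f' A| ≤ C) :
    dd s f f' ≤ 2 * C := by
  unfold dd
  refine mul_le_mul_of_nonneg_left ?_ zero_le_two
  exact Finset.sup'_le _ _ fun A _ => h A

theorem dd_black_white {s : ℕ} {b : Fin k → ℕ} (hb : ∑ i, b i = s + 1) {m : Fin k}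
    (hm : b m ≠ 0) : dd s b (dn b m) ≤ 1 := by
  have hd : ∑ i, dn b m i = s := by
    have h1 : ∑ i, dn b m i + 1 = ∑ i, b i := by
      rw [← gg_sum_dn b hm]
    omega
  have key : ∀ A, |gg s b A - gg s (dn b m) A| ≤ 1 / 2 := by
    intro A
    have hmA : mA (dn b m) A + (if m ∈ A then 1 else 0) = mA b A := gg_mA_dn b hm A
    have hle := gg_mA_le b A
    have hcase : mA b A = s + 1 → m ∈ A := by
      intro he
      by_contra hc
      have h2 : mA b A + b m ≤ ∑ i, b i := by
        have h3 := Finset.sum_le_sum_of_subset (f := b) (Finset.subset_univ (insert m A))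
        rw [Finset.sum_insert hc] at h3
        unfold mA
        omega
      omega
    have hcase0 : mA b A = 0 → m ∉ A := by
      intro he hc
      have h3 : b m ≤ mA b A := Finset.single_le_sum (f := b) (fun _ _ => Nat.zero_le _) hc
      omega
    have e1 : gg s (dn b m) A = (mA (dn b m) A : ℝ) := by rw [gg, if_pos hd]
    have e2 : gg s b A = (if mA b A = 0 then 0 else if mA b A = s + 1 then (s : ℝ)
        else (mA b A : ℝ) - 1 / 2) := by
      rw [gg, if_neg (by omega), if_pos hb]
    rw [e1, e2]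
    have hmR : (mA (dn b m) A : ℝ) + (if m ∈ A then 1 else 0) = (mA b A : ℝ) := by
      rw [← hmA]; push_cast; rfl
    split_ifs with h1 h2
    · rw [if_neg (hcase0 h1), h1] at hmR
      push_cast at hmR
      rw [abs_le]
      constructor <;> linarith
    · rw [if_pos (hcase h2), h2] at hmR
      push_cast at hmR
      rw [abs_le]
      constructor <;> linarith
    · split_ifs at hmR <;> (rw [abs_le]; constructor <;> linarith)
  have := dd_le_of s b (dn b m) (1 / 2) key
  linarith

theorem dd_white_term {s : ℕ} {w : Fin k → ℕ} (hw : ∑ i, w i = s) (i : Fin k) :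
    dd s w (tt s i) ≤ 2 * ((s : ℝ) - w i) := by
  have h1 : ∑ j, tt s i j = s := by simp [tt]
  refine dd_le_of s w (tt s i) ((s : ℝ) - w i) fun A => ?_
  have e1 : gg s w A = (mA w A : ℝ) := by rw [gg, if_pos hw]
  have e2 : gg s (tt s i) A = (mA (tt s i) A : ℝ) := by rw [gg, if_pos h1]
  have e3 : mA (tt s i) A = if i ∈ A then s else 0 := by
    unfold mA tt
    simp only [Pi.single_apply]
    rw [Finset.sum_ite_eq' A i (fun _ => s)]
  rw [e1, e2, e3]
  have hle : mA w A ≤ s := hw ▸ gg_mA_le w A
  by_cases hi : i ∈ A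
  · rw [if_pos hi]
    have h3 : w i ≤ mA w A := Finset.single_le_sum (f := w) (fun _ _ => Nat.zero_le _) hi
    have h3' : (w i : ℝ) ≤ mA w A := by exact_mod_cast h3
    have hle' : (mA w A : ℝ) ≤ s := by exact_mod_cast hle
    rw [abs_le]
    constructor <;> linarith
  · rw [if_neg hi]
    have h2 : mA w A + w i ≤ s := by
      have h3 := Finset.sum_le_sum_of_subset (f := w) (Finset.subset_univ (insert i A))
      rw [Finset.sum_insert hi] at h3
      unfold mA
      omega
    have h2' : (mA w A : ℝ) + w i ≤ s := by exact_mod_cast h2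
    push_cast
    rw [sub_zero, abs_of_nonneg (by positivity)]
    linarith

theorem dd_white_white {s : ℕ} {w w' : Fin k → ℕ} (hw : ∑ i, w i = s) (hw' : ∑ i, w' i = s) :
    dd s w w' ≤ 2 * s := by
  refine dd_le_of s w w' s fun A => ?_
  have e1 : gg s w A = (mA w A : ℝ) := by rw [gg, if_pos hw]
  have e2 : gg s w' A = (mA w' A : ℝ) := by rw [gg, if_pos hw']
  rw [e1, e2]
  have h1 : (mA w A : ℝ) ≤ s := by exact_mod_cast hw ▸ gg_mA_le w A
  have h2 : (mA w' A : ℝ) ≤ s := by exact_mod_cast hw' ▸ gg_mA_le w' A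
  have h3 : (0 : ℝ) ≤ mA w A := Nat.cast_nonneg _
  have h4 : (0 : ℝ) ≤ mA w' A := Nat.cast_nonneg _
  rw [abs_le]
  constructor <;> linarith

end BcrL
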