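import Pool.Agent.Lib.MP_c1293d_lc.Low.Loc
import Pool.Agent.Lib.MP_c1293d_lc.Low.Count

/-!
Module Lam: the saving.

PROOF. Only active `b` count. Group the active `b ∈ Wh k (s+1)` by the support `J`, `|J| = j ≥ 3`: there are
`k.choose j` supports, each has `NN q j (s+1)` vectors (`card_le_q`, `s + 1 < 2 q + 2`), and
`(j - 2) aa b = (j-2) κ (j q - (s+1)) / ((j-1) (q-1)^j (k-1).choose (j-1))`; `k.choose j = (k/j) (k-1).choose (j-1)`
(`Nat.succ_mul_choose_eq` / `Nat.choose_mul_succ_eq`), `j ≤ s + 1 ≤ k`.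
-/

namespace BcrL

open Finset

variable {k : ℕ}

theorem sum_saving {s q : ℕ} {κ : ℝ} (hq : 1 < q) (hsq : s ≤ 2 * q) (hk : s < k) :
    ∑ b ∈ Wh k (s + 1), (((supp b).card : ℝ) - 2) * aa q κ b
      = k * κ * ∑ j ∈ Icc 3 (s + 1), NN q j (s + 1) * (((j : ℝ) - 2) * ((j : ℝ) * q - (s + 1))
          / ((j : ℝ) * ((j : ℝ) - 1) * ((q : ℝ) - 1) ^ j)) := by
  obtain ⟨H, hH⟩ : ∃ H : ℕ → ℝ, H = fun j : ℕ => if 3 ≤ j then
    ((j : ℝ) - 2) * (NN q j (s + 1) * (CC k q κ j * ((j : ℝ) * q - (s + 1)))) else 0 := ⟨_, rfl⟩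
  have hA : ∀ J : Finset (Fin k), ∑ b ∈ (Wh k (s + 1)).filter (fun b => supp b = J),
      (((supp b).card : ℝ) - 2) * aa q κ b = H J.card := by
    intro J
    rw [hH]
    dsimp only
    split_ifs with h3
    · have h1 : ∀ b ∈ (Wh k (s + 1)).filter (fun b => supp b = J),
          (((supp b).card : ℝ) - 2) * aa q κ b = if ∀ l, b l ≤ q then
            ((J.card : ℝ) - 2) * (CC k q κ J.card * ((J.card : ℝ) * q - (s + 1))) else 0 := by
        intro b hb
        rw [Finset.mem_filter] at hb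
        obtain ⟨hb1, hb2⟩ := hb
        by_cases hq' : ∀ l, b l ≤ q
        · rw [if_pos hq', aa_eq (mem_Wh.1 hb1) ⟨hq', by rw [hb2]; exact h3⟩, hb2]
        · rw [if_neg hq', aa_not_act (fun h => hq' h.1), mul_zero]
      rw [Finset.sum_congr rfl h1, ← Finset.sum_filter, Finset.filter_filter, Finset.sum_const,
        nsmul_eq_mul, card_le_q J (by omega) (by omega) (by omega)]
      ring
    · apply Finset.sum_eq_zero
      intro b hb
      rw [Finset.mem_filter] at hb
      rw [aa_not_act (fun h => h3 (by rw [← hb.2]; exact h.2)), mul_zero]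
  have hB : ∑ b ∈ Wh k (s + 1), (((supp b).card : ℝ) - 2) * aa q κ b =
      ∑ j ∈ Finset.range (k + 1), (k.choose j : ℝ) * H j := by
    have h1 : ∑ b ∈ Wh k (s + 1), (((supp b).card : ℝ) - 2) * aa q κ b =
        ∑ J : Finset (Fin k), H J.card := by
      rw [← Finset.sum_fiberwise (Wh k (s + 1)) supp]
      exact Finset.sum_congr rfl fun J _ => hA J
    rw [h1, ← Finset.powerset_univ, Finset.sum_powerset_apply_card, Finset.card_univ,
      Fintype.card_fin]
    simp only [nsmul_eq_mul]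
  rw [hB, Finset.mul_sum]
  have hsub : Icc 3 (s + 1) ⊆ Finset.range (k + 1) := by
    intro j hj
    rw [Finset.mem_Icc] at hj
    rw [Finset.mem_range]
    omega
  rw [← Finset.sum_subset hsub]
  · apply Finset.sum_congr rfl
    intro j hj
    rw [Finset.mem_Icc] at hj
    obtain ⟨j', rfl⟩ : ∃ j', j = j' + 1 := ⟨j - 1, by omega⟩
    obtain ⟨k', hk'⟩ : ∃ k', k = k' + 1 := ⟨k - 1, by omega⟩
    have hc : ((k' : ℝ) + 1) * (k'.choose j' : ℝ) =
        ((k' + 1).choose (j' + 1) : ℝ) * ((j' : ℝ) + 1) := by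
      exact_mod_cast Nat.add_one_mul_choose_eq k' j'
    have hcp : (0 : ℝ) < (k'.choose j' : ℝ) := by
      exact_mod_cast Nat.choose_pos (by omega : j' ≤ k')
    have hq1 : (0 : ℝ) < (q : ℝ) - 1 := by
      have : (1 : ℝ) < q := by exact_mod_cast hq
      linarith
    have hj0 : (0 : ℝ) < (j' : ℝ) := by
      have : 2 ≤ j' := by omega
      have h2 : (2 : ℝ) ≤ j' := by exact_mod_cast this
      linarith
    have hch : ((k' + 1).choose (j' + 1) : ℝ) = ((k' : ℝ) + 1) * (k'.choose j' : ℝ) / (j' + 1) := by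
      rw [eq_div_iff (by positivity)]
      exact hc.symm
    rw [hH]
    dsimp only
    rw [if_pos hj.1]
    unfold CC
    rw [hk', Nat.add_sub_cancel, Nat.add_sub_cancel, hch]
    push_cast
    have e1 : ((j' : ℝ) + 1) - 1 = j' := by ring
    rw [e1]
    field_simp
  · intro j hj hj'
    rw [Finset.mem_range] at hj
    rw [Finset.mem_Icc, not_and_or] at hj'
    rw [hH]
    dsimp only
    split_ifs with h3
    · have hjs : s + 1 < j := by
        rcases hj' with h | h <;> omega
      have hz : NN q j (s + 1) = 0 := by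
        unfold NN
        rw [Nat.choose_eq_zero_of_lt (by omega : s + 1 - 1 < j - 1),
          Nat.choose_eq_zero_of_lt (by omega : s + 1 - 1 - q < j - 1)]
        simp
      rw [hz]
      ring
    · rw [mul_zero]

end BcrL
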