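import Pool.Agent.Lib.MP_c1293d_lc.Low.Defs

/-!
Module NormA: the binomial identity behind the normalisation.

Put `x = 1/(q-1)`, so `q x = 1 + x`. First part of `NN`: `(s-1).choose (m-1) / m = s.choose m / s`,
`∑_{m≥2} x^(m+1) (q (s-1).choose (m-1) - s.choose m)
= q x^2 ((1+x)^(s-1) - 1) - x ((1+x)^s - 1 - s x) = (s-1) x^2`.
Second part, `r = s-1-q`: `- ∑_{m≥2} (m q - s) x^(m+1) r.choose (m-1)
= x^2 ((1+x)^r - (s-q))`. Total `x^2 (q - 1 + (1+x)^r) = DD s q`.
-/

namespace BcrL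

open Finset

variable {k : ℕ}

private lemma nrm_binom (x : ℝ) (n N : ℕ) (h : n < N) :
    ∑ l ∈ range N, x ^ l * (n.choose l : ℝ) = (1 + x) ^ n := by
  have h1 : ∑ l ∈ range (n + 1), x ^ l * (n.choose l : ℝ)
      = ∑ l ∈ range N, x ^ l * (n.choose l : ℝ) := by
    apply Finset.sum_subset
    · intro a ha
      simp only [mem_range] at *
      omega
    · intro a _ ha
      simp only [mem_range, not_lt] at ha
      rw [Nat.choose_eq_zero_of_lt (by omega)]
      simp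
  rw [← h1, add_comm 1 x, add_pow]
  apply Finset.sum_congr rfl
  intro l _
  simp

private lemma nrm_binom1 (x : ℝ) (n N : ℕ) (h : n < N) :
    ∑ l ∈ range N, (l : ℝ) * (x ^ l * (n.choose l : ℝ)) = n * x * (1 + x) ^ (n - 1) := by
  obtain ⟨M, rfl⟩ : ∃ M, N = M + 1 := ⟨N - 1, by omega⟩
  rw [Finset.sum_range_succ']
  simp only [Nat.cast_zero, zero_mul, add_zero]
  rcases n with _ | n
  · simp
  · have h2 : ∀ i ∈ range M, ((i + 1 : ℕ) : ℝ) * (x ^ (i + 1) * ((n + 1).choose (i + 1) : ℝ))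
        = ((n + 1 : ℕ) : ℝ) * x * (x ^ i * (n.choose i : ℝ)) := by
      intro i _
      have h3 : ((n + 1 : ℕ) : ℝ) * (n.choose i : ℝ)
          = ((n + 1).choose (i + 1) : ℝ) * ((i + 1 : ℕ) : ℝ) := by
        exact_mod_cast Nat.add_one_mul_choose_eq n i
      rw [pow_succ]
      linear_combination (-(x ^ i * x)) * h3
    rw [Finset.sum_congr rfl h2, ← Finset.mul_sum, nrm_binom x n M (by omega)]
    simp

theorem norm_sum {s q : ℕ} (hq : 1 < q) (hqs : q < s) (hsq : s ≤ 2 * q) :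
    ∑ m ∈ Icc 2 s, NN q m s * ((m : ℝ) * q - s) / ((m : ℝ) * ((q : ℝ) - 1) ^ (m + 1)) = DD s q := by
  obtain ⟨r, rfl⟩ : ∃ r, s = q + 1 + r := ⟨s - q - 1, by omega⟩
  have hq1 : (0 : ℝ) < (q : ℝ) - 1 := by
    have : (1 : ℝ) < q := by exact_mod_cast hq
    linarith
  set x : ℝ := 1 / ((q : ℝ) - 1) with hx
  have hqx : (q : ℝ) * x = 1 + x := by
    rw [hx]
    field_simp
    ring
  have hxq : x * ((q : ℝ) - 1) = 1 := by
    rw [hx]
    field_simp
  -- rewrite of the index set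
  have hI : (Icc 2 (q + 1 + r) : Finset ℕ) = Ico 2 (q + r + 2) := by
    ext m
    simp only [mem_Icc, mem_Ico]
    omega
  rw [hI, Finset.sum_Ico_eq_sum_range]
  have hS : q + r + 2 - 2 = q + r := by omega
  rw [hS]
  have hterm : ∀ i ∈ range (q + r),
      NN q (2 + i) (q + 1 + r) * (((2 + i : ℕ) : ℝ) * q - ((q + 1 + r : ℕ) : ℝ))
        / (((2 + i : ℕ) : ℝ) * ((q : ℝ) - 1) ^ (2 + i + 1))
      = x ^ 2 * q * (x ^ (i + 1) * ((q + r).choose (i + 1) : ℝ))
        - x * (x ^ (i + 2) * ((q + r + 1).choose (i + 2) : ℝ))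
        - (x ^ 2 * q * (((i + 1 : ℕ) : ℝ) * (x ^ (i + 1) * (r.choose (i + 1) : ℝ)))
          - x ^ 2 * (1 + r) * (x ^ (i + 1) * (r.choose (i + 1) : ℝ))) := by
    intro i _
    have hNN : NN q (2 + i) (q + 1 + r)
        = ((q + r).choose (i + 1) : ℝ) - ((2 + i : ℕ) : ℝ) * (r.choose (i + 1) : ℝ) := by
      unfold NN
      have e1 : q + 1 + r - 1 = q + r := by omega
      have e2 : 2 + i - 1 = i + 1 := by omega
      have e3 : q + 1 + r - 1 - q = r := by omega
      rw [e3, e1, e2]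
    have hch : ((q + r + 1 : ℕ) : ℝ) * ((q + r).choose (i + 1) : ℝ)
        = ((q + r + 1).choose (i + 2) : ℝ) * ((i + 2 : ℕ) : ℝ) := by
      exact_mod_cast Nat.add_one_mul_choose_eq (q + r) (i + 1)
    have hpow : ((q : ℝ) - 1) ^ (2 + i + 1) * x ^ (i + 3) = 1 := by
      have : 2 + i + 1 = i + 3 := by ring
      rw [this, ← mul_pow, mul_comm ((q : ℝ) - 1) x, hxq, one_pow]
    have hp0 : ((q : ℝ) - 1) ^ (2 + i + 1) ≠ 0 := pow_ne_zero _ hq1.ne'
    have hi0 : (((2 + i : ℕ) : ℝ)) ≠ 0 := by positivity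
    rw [div_eq_iff (mul_ne_zero hi0 hp0), hNN]
    have e4 : x ^ (i + 3) = x ^ 2 * x ^ (i + 1) := by ring
    have e5 : x ^ (i + 3) = x * x ^ (i + 2) := by ring
    have key : (x ^ 2 * q * (x ^ (i + 1) * ((q + r).choose (i + 1) : ℝ))
        - x * (x ^ (i + 2) * ((q + r + 1).choose (i + 2) : ℝ))
        - (x ^ 2 * q * (((i + 1 : ℕ) : ℝ) * (x ^ (i + 1) * (r.choose (i + 1) : ℝ)))
          - x ^ 2 * (1 + r) * (x ^ (i + 1) * (r.choose (i + 1) : ℝ))))
        = x ^ (i + 3) * (q * ((q + r).choose (i + 1) : ℝ) - ((q + r + 1).choose (i + 2) : ℝ)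
          - (q * ((i + 1 : ℕ) : ℝ) - (1 + r)) * (r.choose (i + 1) : ℝ)) := by
      ring
    rw [key]
    have key2 : x ^ (i + 3) * (q * ((q + r).choose (i + 1) : ℝ)
          - ((q + r + 1).choose (i + 2) : ℝ)
          - (q * ((i + 1 : ℕ) : ℝ) - (1 + r)) * (r.choose (i + 1) : ℝ))
          * (((2 + i : ℕ) : ℝ) * ((q : ℝ) - 1) ^ (2 + i + 1))
        = (((q : ℝ) - 1) ^ (2 + i + 1) * x ^ (i + 3)) * (((2 + i : ℕ) : ℝ)
          * (q * ((q + r).choose (i + 1) : ℝ) - ((q + r + 1).choose (i + 2) : ℝ)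
          - (q * ((i + 1 : ℕ) : ℝ) - (1 + r)) * (r.choose (i + 1) : ℝ))) := by
      ring
    rw [key2, hpow]
    push_cast at hch ⊢
    linear_combination (-1 : ℝ) * hch
  rw [Finset.sum_congr rfl hterm]
  simp only [Finset.sum_sub_distrib, ← Finset.mul_sum]
  -- the four sums
  have s1 : ∑ i ∈ range (q + r), x ^ (i + 1) * ((q + r).choose (i + 1) : ℝ)
      = (1 + x) ^ (q + r) - 1 := by
    have := nrm_binom x (q + r) (q + r + 1) (by omega)
    rw [Finset.sum_range_succ'] at this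
    simp only [pow_zero, Nat.choose_zero_right, Nat.cast_one, mul_one] at this
    linarith
  have s2 : ∑ i ∈ range (q + r), x ^ (i + 2) * ((q + r + 1).choose (i + 2) : ℝ)
      = (1 + x) ^ (q + r + 1) - 1 - (q + r + 1) * x := by
    have := nrm_binom x (q + r + 1) (q + r + 2) (by omega)
    rw [Finset.sum_range_succ', Finset.sum_range_succ'] at this
    simp only [pow_zero, Nat.choose_zero_right, Nat.cast_one, mul_one, zero_add, pow_one,
      Nat.choose_one_right] at this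
    push_cast at this
    linarith
  have s3 : ∑ i ∈ range (q + r), x ^ (i + 1) * (r.choose (i + 1) : ℝ)
      = (1 + x) ^ r - 1 := by
    have := nrm_binom x r (q + r + 1) (by omega)
    rw [Finset.sum_range_succ'] at this
    simp only [pow_zero, Nat.choose_zero_right, Nat.cast_one, mul_one] at this
    linarith
  have s4 : ∑ i ∈ range (q + r), ((i + 1 : ℕ) : ℝ) * (x ^ (i + 1) * (r.choose (i + 1) : ℝ))
      = r * x * (1 + x) ^ (r - 1) := by
    have := nrm_binom1 x r (q + r + 1) (by omega)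
    rw [Finset.sum_range_succ'] at this
    simp only [Nat.cast_zero, zero_mul, add_zero] at this
    exact this
  rw [s1, s2, s3, s4]
  have hDD : DD (q + 1 + r) q = x ^ 2 * ((q : ℝ) - 1 + (1 + x) ^ r) := by
    unfold DD
    have e1 : q + 1 + r - 1 - q = r := by omega
    have e2 : (q : ℝ) / ((q : ℝ) - 1) = 1 + x := by
      rw [← hqx, hx]
      ring
    rw [e1, e2, hx]
    field_simp
  rw [hDD]
  have s5 : (q : ℝ) * (r * x * (1 + x) ^ (r - 1)) = r * (1 + x) ^ r := by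
    rcases r with _ | r
    · simp
    · have : r + 1 - 1 = r := by omega
      rw [this, pow_succ]
      push_cast
      linear_combination ((r : ℝ) + 1) * (1 + x) ^ r * hqx
  have s6 : (1 + x) ^ (q + r + 1) = (1 + x) ^ (q + r) * (1 + x) := pow_succ _ _
  rw [s6]
  linear_combination x * ((1 + x) ^ (q + r) - 1) * hqx - x ^ 2 * s5

end BcrL
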