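import Pool.Agent.Lib.MP_c1293d_lc.Low.Count
import Pool.Agent.Lib.MP_c1293d_lc.Low.NormA

/-!
Module NormB: the normalisation `∑_{w, w i = 0} dw w = κ * DD s q`.

PROOF. Group by the support `J ⊆ univ \ {i}`, `|J| = m`: there are `(k-1).choose m` of them, each has
`NN q m s` vectors `≤ q`, and `dw w = CC (m+1) (m q - s) = κ (m q - s) / (m (q-1)^(m+1) (k-1).choose m)`
(`m ≥ 2`, otherwise `dw = 0`; `m ≤ s ≤ k - 1`, so `(k-1).choose m ≠ 0`). So the sum is
`κ ∑_{m=2}^{s} NN q m s (m q - s) / (m (q-1)^(m+1))`, and `norm_sum` applies.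
-/

namespace BcrL

open Finset

variable {k : ℕ}

private lemma nrmB_inner {s q : ℕ} {κ : ℝ} (hqs : q < s) (hsq : s ≤ 2 * q)
    (i : Fin k) (J : Finset (Fin k)) (hJ : J ∈ ((univ : Finset (Fin k)).erase i).powerset) :
    ∑ w ∈ ((Wh k s).filter (fun w => w i = 0)).filter (fun w => supp w = J), dw s q κ w
      = if 2 ≤ J.card then NN q J.card s * (CC k q κ (J.card + 1) * ((J.card : ℝ) * q - s))
        else 0 := by
  have hiJ : i ∉ J := by
    intro h
    have := (mem_powerset.mp hJ) h
    simp at this
  split_ifs with h2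
  · rw [← card_le_q (k := k) J h2 (n := s) (q := q) (by omega) (by omega), ← nsmul_eq_mul,
      ← Finset.sum_const]
    symm
    apply Finset.sum_subset_zero_on_sdiff
    · intro w hw
      simp only [mem_filter] at hw ⊢
      refine ⟨⟨hw.1, ?_⟩, hw.2.1⟩
      by_contra h
      apply hiJ
      rw [← hw.2.1]
      simp only [supp, mem_filter, mem_univ, true_and]
      exact h
    · intro w hw
      simp only [mem_sdiff, mem_filter, not_and] at hw
      have hsup : supp w = J := hw.1.2
      have hnot : ¬ ∀ l, w l ≤ q := hw.2 hw.1.1.1 hsup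
      unfold dw
      rw [if_neg]
      intro h
      exact hnot h.1
    · intro w hw
      simp only [mem_filter] at hw
      unfold dw
      rw [if_pos, hw.2.1]
      refine ⟨hw.2.2, ?_⟩
      rw [hw.2.1]
      exact h2
  · apply Finset.sum_eq_zero
    intro w hw
    simp only [mem_filter] at hw
    unfold dw
    rw [if_neg]
    intro h
    apply h2
    rw [← hw.2]
    exact h.2

theorem sum_dw_zero {s q : ℕ} {κ : ℝ} (hq : 1 < q) (hqs : q < s) (hsq : s ≤ 2 * q) (hk : s < k)
    (i : Fin k) :
    ∑ w ∈ (Wh k s).filter (fun w => w i = 0), dw s q κ w = κ * DD s q := by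
  have hq1 : (0 : ℝ) < (q : ℝ) - 1 := by
    have : (1 : ℝ) < q := by exact_mod_cast hq
    linarith
  have hmaps : ∀ w ∈ (Wh k s).filter (fun w => w i = 0),
      supp w ∈ ((univ : Finset (Fin k)).erase i).powerset := by
    intro w hw
    simp only [mem_filter] at hw
    rw [mem_powerset]
    intro l hl
    simp only [supp, mem_filter, mem_univ, true_and] at hl
    simp only [mem_erase, mem_univ, and_true]
    rintro rfl
    exact hl hw.2
  rw [← Finset.sum_fiberwise_of_maps_to hmaps (fun w => dw s q κ w),
    Finset.sum_congr rfl (nrmB_inner (κ := κ) hqs hsq i)]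
  have hps := Finset.sum_powerset_apply_card
    (fun m : ℕ => if 2 ≤ m then NN q m s * (CC k q κ (m + 1) * ((m : ℝ) * q - s)) else (0 : ℝ))
    (x := (univ : Finset (Fin k)).erase i)
  rw [hps]
  have hc : ((univ : Finset (Fin k)).erase i).card = k - 1 := by
    rw [card_erase_of_mem (mem_univ _), card_univ, Fintype.card_fin]
  rw [hc, ← norm_sum hq hqs hsq, Finset.mul_sum]
  symm
  apply Finset.sum_subset_zero_on_sdiff
  · intro m hm
    simp only [mem_Icc] at hm
    simp only [mem_range]
    omega
  · intro m hm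
    simp only [mem_sdiff, mem_range, mem_Icc, not_and, not_le] at hm
    by_cases h2 : 2 ≤ m
    · rw [if_pos h2]
      have hms : s < m := hm.2 h2
      have h0 : NN q m s = 0 := by
        unfold NN
        rw [Nat.choose_eq_zero_of_lt (by omega), Nat.choose_eq_zero_of_lt (by omega)]
        simp
      rw [h0]
      simp
    · rw [if_neg h2]
      simp
  · intro m hm
    simp only [mem_Icc] at hm
    rw [if_pos hm.1]
    unfold CC
    have hmm : m + 1 - 1 = m := by omega
    rw [hmm, nsmul_eq_mul]
    have hch : (((k - 1).choose m : ℕ) : ℝ) ≠ 0 := by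
      have : 0 < (k - 1).choose m := Nat.choose_pos (by omega)
      positivity
    have hm0 : (m : ℝ) ≠ 0 := by
      have : 0 < m := by omega
      positivity
    have hp : ((q : ℝ) - 1) ^ (m + 1) ≠ 0 := pow_ne_zero _ hq1.ne'
    push_cast
    have h1 : (m : ℝ) + 1 - 1 = m := by ring
    rw [h1]
    field_simp

end BcrL
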