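import Pool.Agent.Lib.MP_c1293d_lc.Low.Defs

/-!
Module Tree2: every Steiner tree costs at least `2 S (k - 1)` if there are superadditive set
functions `g v` (`v` a vertex), `g v ∅ = 0`, `g v univ ≤ S`, `g (t i) {i} = S`, and
`2 (g u A - g v A) ≤ c(uv)` along edges.

PROOF. Fix a Steiner tree `T` (only connectedness is used) and `r := t i0`. Inductive predicate
(or strong induction on a Finset of vertices) : `Grow S E`: `Grow {r} ∅`; if `Grow S E`, `u ∈ S`,
`v ∉ S`, `T.Adj u v` then `Grow (insert v S) (insert s(u,v) E)`. Facts: every `e ∈ E` has both ends in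
`S` and is an edge of `T`. CLAIM: if `Grow S E` and `A : V → Finset (Fin k)` is pairwise disjoint on
`S`, then `∑ v ∈ S, 2 g v (A v) - 2 g r (S.biUnion A) ≤ ∑ e ∈ E, c e`.
Base: equality `0 = 0`. Step: apply the induction hypothesis to `A'` which is `A` except
`A' u = A u ∪ A v` (the union over `S` of `A'` is the union over `insert v S` of `A`), use
`g u (A u ∪ A v) ≥ g u (A u) + g u (A v)` and `c s(u,v) ≥ 2 (g v (A v) - g u (A v))`.
Since `T` is connected there is `Grow S E` with `T.verts ⊆ S` (take `S` of maximal cardinality with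
`S ⊆ T.verts`; a walk in `T` from `r` to a missing vertex leaves `S` by an edge of `T`).
Finally take `A v = univ.filter (fun i => t i = v)` (so `A (t i) = {i}` by injectivity, `A v = ∅` if `v`
is not a terminal, the union over `T.verts` is `univ`): the left side is `2 S k - 2 g r univ ≥ 2 S k - 2 S`.
-/

namespace BcrL

open Finset Bcr3

/-- invariant of the growing process -/
private def Inv {V : Type} {G : SimpleGraph V} (c : Sym2 V → ℝ) {k : ℕ}
    (g : V → Finset (Fin k) → ℝ) (T : G.Subgraph) (r : V) [DecidableEq V] (S : Finset V)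
    (E : Finset (Sym2 V)) : Prop :=
  r ∈ S ∧ (∀ v ∈ S, v ∈ T.verts) ∧ (∀ e ∈ E, e ∈ T.edgeSet ∧ ∀ x ∈ e, x ∈ S) ∧
  ∀ A : V → Finset (Fin k), (∀ x ∈ S, ∀ y ∈ S, x ≠ y → Disjoint (A x) (A y)) →
    ∑ v ∈ S, 2 * g v (A v) - 2 * g r (S.biUnion A) ≤ ∑ e ∈ E, c e

private theorem inv_step {V : Type} {G : SimpleGraph V} {c : Sym2 V → ℝ} {k : ℕ}
    {g : V → Finset (Fin k) → ℝ} {T : G.Subgraph} {r : V} [DecidableEq V]
    (hsup : ∀ v A B, Disjoint A B → g v A + g v B ≤ g v (A ∪ B))
    (hlip : ∀ u v A, G.Adj u v → 2 * (g u A - g v A) ≤ c s(u, v))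
    {S : Finset V} {E : Finset (Sym2 V)} (h : Inv c g T r S E) {u v : V} (hu : u ∈ S)
    (hv : v ∉ S) (huv : T.Adj u v) : Inv c g T r (insert v S) (insert s(u, v) E) := by
  obtain ⟨h1, h2, h3, h4⟩ := h
  have hne : u ≠ v := fun h => hv (h ▸ hu)
  have he : s(u, v) ∉ E := fun he => hv ((h3 _ he).2 v (Sym2.mem_mk_right u v))
  refine ⟨mem_insert_of_mem h1, ?_, ?_, ?_⟩
  · intro x hx
    rcases mem_insert.1 hx with rfl | hx
    · exact T.edge_vert huv.symm
    · exact h2 x hx
  · intro e hee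
    rcases mem_insert.1 hee with rfl | hee
    · refine ⟨huv, fun x hx => ?_⟩
      rcases Sym2.mem_iff.1 hx with rfl | rfl
      · exact mem_insert_of_mem hu
      · exact mem_insert_self _ _
    · exact ⟨(h3 e hee).1, fun x hx => mem_insert_of_mem ((h3 e hee).2 x hx)⟩
  · intro A hA
    have hSA : ∀ x ∈ S, ∀ y ∈ S, x ≠ y → Disjoint (A x) (A y) := fun x hx y hy hxy =>
      hA x (mem_insert_of_mem hx) y (mem_insert_of_mem hy) hxy
    have hvA : ∀ x ∈ S, Disjoint (A x) (A v) := fun x hx =>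
      hA x (mem_insert_of_mem hx) v (mem_insert_self _ _) (fun h => hv (h ▸ hx))
    set A' : V → Finset (Fin k) := fun x => if x = u then A u ∪ A v else A x with hA'
    have e1 : A' u = A u ∪ A v := by rw [hA']; exact if_pos rfl
    have e2 : ∀ x, x ≠ u → A' x = A x := fun x hx => by rw [hA']; exact if_neg hx
    have hdis : ∀ x ∈ S, ∀ y ∈ S, x ≠ y → Disjoint (A' x) (A' y) := by
      intro x hx y hy hxy
      by_cases hxu : x = u
      · subst hxu
        rw [e1, e2 y hxy.symm, disjoint_union_left]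
        exact ⟨hSA _ hx _ hy hxy, (hvA y hy).symm⟩
      · rw [e2 x hxu]
        by_cases hyu : y = u
        · subst hyu
          rw [e1, disjoint_union_right]
          exact ⟨hSA _ hx _ hy hxy, hvA x hx⟩
        · rw [e2 y hyu]
          exact hSA _ hx _ hy hxy
    have hU : S.biUnion A' = (insert v S).biUnion A := by
      ext i
      simp only [mem_biUnion, mem_insert]
      constructor
      · rintro ⟨x, hx, hi⟩
        by_cases hxu : x = u
        · subst hxu
          rw [e1, mem_union] at hi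
          rcases hi with hi | hi
          · exact ⟨x, Or.inr hx, hi⟩
          · exact ⟨v, Or.inl rfl, hi⟩
        · rw [e2 x hxu] at hi
          exact ⟨x, Or.inr hx, hi⟩
      · rintro ⟨x, rfl | hx, hi⟩
        · exact ⟨u, hu, by rw [e1]; exact mem_union_right _ hi⟩
        · by_cases hxu : x = u
          · subst hxu
            exact ⟨x, hx, by rw [e1]; exact mem_union_left _ hi⟩
          · exact ⟨x, hx, by rw [e2 x hxu]; exact hi⟩
    have hIH := h4 A' hdis
    rw [hU] at hIH
    rw [sum_insert hv, sum_insert he]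
    have hs1 : ∑ x ∈ S, 2 * g x (A' x) = ∑ x ∈ S.erase u, 2 * g x (A x) + 2 * g u (A u ∪ A v) := by
      rw [← sum_erase_add _ _ hu, e1]
      congr 1
      refine sum_congr rfl fun x hx => ?_
      rw [e2 x (ne_of_mem_erase hx)]
    have hs2 : ∑ x ∈ S, 2 * g x (A x) = ∑ x ∈ S.erase u, 2 * g x (A x) + 2 * g u (A u) := by
      rw [← sum_erase_add _ _ hu]
    have h5 := hsup u (A u) (A v) (hvA u hu)
    have h6 := hlip v u (A v) (T.adj_sub huv.symm)
    rw [Sym2.eq_swap] at h6
    linarith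

theorem tree_cost_ge {V : Type} [Fintype V] {G : SimpleGraph V} {c : Sym2 V → ℝ}
    (hc : ∀ e, 0 ≤ c e) {k : ℕ} (hk : 0 < k) (g : V → Finset (Fin k) → ℝ) (t : Fin k → V)
    (ht : Function.Injective t) {R : Finset V} (hR : ∀ i, t i ∈ R)
    (h0 : ∀ v, g v ∅ = 0)
    (hsup : ∀ v A B, Disjoint A B → g v A + g v B ≤ g v (A ∪ B)) (S : ℝ)
    (huniv : ∀ v, g v univ ≤ S)
    (hlip : ∀ u v A, G.Adj u v → 2 * (g u A - g v A) ≤ c s(u, v))
    (hterm : ∀ i, g (t i) {i} = S) {T : G.Subgraph} (hT : IsSteinerTree R T) :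
    2 * S * (k - 1) ≤ cost c T := by
  classical
  set r : V := t ⟨0, hk⟩ with hr
  have hTr : ∀ i, t i ∈ T.verts := fun i => hT.2 _ (hR i)
  -- base
  have hbase : Inv c g T r {r} ∅ := by
    refine ⟨mem_singleton_self r, ?_, ?_, ?_⟩
    · intro v hv
      rw [mem_singleton.1 hv]
      exact hTr _
    · intro e he
      exact absurd he (notMem_empty e)
    · intro A _
      rw [sum_singleton, singleton_biUnion, sum_empty, sub_self]
  -- maximal
  obtain ⟨Z, ⟨E, hZ⟩, hmax⟩ : ∃ Z : Finset V, (∃ E, Inv c g T r Z E) ∧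
      ∀ Z' : Finset V, (∃ E, Inv c g T r Z' E) → Z'.card ≤ Z.card := by
    have hne : ((univ : Finset (Finset V)).filter fun Z => ∃ E, Inv c g T r Z E).Nonempty :=
      ⟨{r}, mem_filter.2 ⟨mem_univ _, ∅, hbase⟩⟩
    obtain ⟨Z, hZ, hmax⟩ := exists_max_image _ Finset.card hne
    exact ⟨Z, (mem_filter.1 hZ).2, fun Z' h => hmax Z' (mem_filter.2 ⟨mem_univ _, h⟩)⟩
  have hall : ∀ v ∈ T.verts, v ∈ Z := by
    intro v hv
    by_contra hvZ
    have hconn := hT.1.connected
    obtain ⟨w⟩ := hconn.preconnected ⟨r, hTr _⟩ ⟨v, hv⟩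
    obtain ⟨d, -, hd1, hd2⟩ := w.exists_boundary_dart {x | (x : V) ∈ Z} hZ.1 hvZ
    have hadj : T.Adj d.fst d.snd := d.adj
    have hnew := inv_step hsup hlip hZ (u := (d.fst : V)) (v := (d.snd : V)) hd1 hd2 hadj
    have := hmax _ ⟨_, hnew⟩
    rw [card_insert_of_notMem hd2] at this
    omega
  -- conclusion
  set A : V → Finset (Fin k) := fun v => univ.filter fun i => t i = v with hA
  have hdis : ∀ x ∈ Z, ∀ y ∈ Z, x ≠ y → Disjoint (A x) (A y) := by
    intro x _ y _ hxy
    rw [disjoint_left]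
    intro i hi hi'
    rw [hA, mem_filter] at hi hi'
    exact hxy (hi.2.symm.trans hi'.2)
  have hU : Z.biUnion A = univ := by
    rw [eq_univ_iff_forall]
    intro i
    rw [mem_biUnion]
    exact ⟨t i, hall _ (hTr i), by rw [hA, mem_filter]; exact ⟨mem_univ _, rfl⟩⟩
  have hfin := hZ.2.2.2 A hdis
  rw [hU] at hfin
  have hsum : ∑ v ∈ Z, 2 * g v (A v) = 2 * S * k := by
    have hsub : univ.image t ⊆ Z := by
      intro x hx
      obtain ⟨i, -, rfl⟩ := mem_image.1 hx
      exact hall _ (hTr i)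
    rw [← sum_subset hsub]
    · rw [sum_image (fun i _ j _ h => ht h)]
      have : ∀ i ∈ (univ : Finset (Fin k)), 2 * g (t i) (A (t i)) = 2 * S := by
        intro i _
        have : A (t i) = {i} := by
          ext j
          rw [hA, mem_filter, mem_singleton]
          exact ⟨fun h => ht h.2, fun h => ⟨mem_univ _, by rw [h]⟩⟩
        rw [this, hterm]
      rw [sum_congr rfl this, sum_const, card_univ, Fintype.card_fin, nsmul_eq_mul]
      ring
    · intro x _ hx
      have : A x = ∅ := by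
        rw [eq_empty_iff_forall_notMem]
        intro i hi
        rw [hA, mem_filter] at hi
        exact hx (mem_image.2 ⟨i, mem_univ _, hi.2⟩)
      rw [this, h0, mul_zero]
  have hE : ∑ e ∈ E, c e ≤ cost c T := by
    unfold cost
    refine sum_le_sum_of_subset_of_nonneg ?_ fun e _ _ => hc e
    intro e he
    rw [mem_filter]
    exact ⟨mem_univ _, (hZ.2.2.1 e he).1⟩
  have hg := huniv r
  rw [hsum] at hfin
  linarith

end BcrL
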