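import Pool.Agent.Lib.MP_c1293d_lc.Dual
import Pool.Agent.Lib.MP_c1293d_lc.Low.Tree2
import Pool.Agent.Lib.MP_c1293d_lc.Low.FlowLP
import Pool.Agent.Lib.MP_c1293d_lc.Low.GG
import Pool.Agent.Lib.MP_c1293d_lc.Low.CostSum
import Pool.Agent.Lib.MP_c1293d_lc.Low.NormB
import Pool.Agent.Lib.MP_c1293d_lc.Low.Lam

/-!
The instances: vertices, costs, terminals; optimum and relaxation.
-/

namespace BcrL

open Finset Bcr3

variable {k : ℕ}

/-- vertices of the instance -/
abbrev Vt (k s : ℕ) := Fin k → Fin (s + 2)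

/-- a vertex as a vector of natural numbers -/
def ofV {s : ℕ} (v : Vt k s) : Fin k → ℕ := fun i => (v i : ℕ)

/-- a vector as a vertex -/
def toV (s : ℕ) (f : Fin k → ℕ) : Vt k s := fun i => ⟨min (f i) (s + 1), by omega⟩

theorem ofV_toV {s : ℕ} {f : Fin k → ℕ} (hf : ∀ i, f i ≤ s + 1) : ofV (toV s f) = f := by
  funext i
  simp [ofV, toV, hf i]

theorem le_of_sum {f : Fin k → ℕ} {n : ℕ} (h : ∑ i, f i = n) (i : Fin k) : f i ≤ n := by
  rw [← h]
  exact Finset.single_le_sum (f := f) (fun _ _ => Nat.zero_le _) (mem_univ i)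

theorem sum_tt (s : ℕ) (i : Fin k) : ∑ l, tt s i l = s := by
  unfold tt
  simp

theorem ofV_white {s : ℕ} {w : Fin k → ℕ} (hw : w ∈ Wh k s) : ofV (toV s w) = w :=
  ofV_toV fun i => (le_of_sum (mem_Wh.1 hw) i).trans (Nat.le_succ s)

theorem ofV_black {s : ℕ} {b : Fin k → ℕ} (hb : b ∈ Wh k (s + 1)) : ofV (toV s b) = b :=
  ofV_toV fun i => le_of_sum (mem_Wh.1 hb) i

theorem tt_mem (s : ℕ) (i : Fin k) : tt s i ∈ Wh k s := mem_Wh.2 (sum_tt s i)

theorem dn_mem {s : ℕ} {b : Fin k → ℕ} (hb : b ∈ Wh k (s + 1)) {m : Fin k} (hm : b m ≠ 0) :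
    dn b m ∈ Wh k s := mem_Wh.2 (sum_dn (mem_Wh.1 hb) hm)

/-- costs -/
noncomputable def cc (k s : ℕ) : Sym2 (Vt k s) → ℝ :=
  Sym2.lift ⟨fun u v => dd s (ofV u) (ofV v), fun u v => dd_comm s (ofV u) (ofV v)⟩

theorem cc_mk {s : ℕ} (u v : Vt k s) : cc k s s(u, v) = dd s (ofV u) (ofV v) := rfl

theorem cc_nonneg {s : ℕ} (e : Sym2 (Vt k s)) : 0 ≤ cc k s e := by
  induction e using Sym2.ind with
  | _ u v => rw [cc_mk]; exact dd_nonneg _ _ _

/-- terminals -/
def term (s : ℕ) (i : Fin k) : Vt k s := toV s (tt s i)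

theorem ofV_term (s : ℕ) (i : Fin k) : ofV (term s i) = tt s i := ofV_white (tt_mem s i)

theorem term_inj {s : ℕ} (hs : 0 < s) : Function.Injective (term (k := k) s) := by
  intro i j h
  by_contra hij
  have h1 : ofV (term s i) i = ofV (term s j) i := by rw [h]
  rw [ofV_term, ofV_term] at h1
  unfold tt at h1
  rw [Pi.single_eq_same, Pi.single_eq_of_ne hij] at h1
  omega

/-- set of terminals -/
def RR (k s : ℕ) : Finset (Vt k s) := univ.image (term s)

theorem term_mem {s : ℕ} (i : Fin k) : term s i ∈ RR k s := mem_image_of_mem _ (mem_univ i)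

theorem card_RR {s : ℕ} (hs : 0 < s) : (RR k s).card = k := by
  unfold RR
  rw [card_image_of_injective _ (term_inj hs), card_univ, Fintype.card_fin]

/-- in a complete graph on a nonempty finite type there is a Steiner tree -/
theorem exists_steiner {V : Type} [Fintype V] [Nonempty V] (R : Finset V) :
    ∃ T : (⊤ : SimpleGraph V).Subgraph, IsSteinerTree R T := by
  classical
  have hconn : (⊤ : SimpleGraph V).Connected := SimpleGraph.connected_top
  obtain ⟨T, hTle, hT⟩ := hconn.exists_isTree_le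
  let T' : (⊤ : SimpleGraph V).Subgraph :=
    { verts := Set.univ
      Adj := T.Adj
      adj_sub := fun {a b} h => hTle h
      edge_vert := fun {a b} h => Set.mem_univ a
      symm := T.symm }
  refine ⟨T', ?_, fun t _ => Set.mem_univ t⟩
  have e : T'.coe ≃g T :=
    { toEquiv := Equiv.Set.univ V
      map_rel_iff' := by
        intro a b
        exact Iff.rfl }
  exact e.isTree_iff.2 hT

theorem opt_ge {s : ℕ} (hk : 0 < k) (hs : 0 < s) :
    2 * s * ((k : ℝ) - 1) ≤ OPT (⊤ : SimpleGraph (Vt k s)) (cc k s) (RR k s) := by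
  obtain ⟨T0, hT0⟩ := exists_steiner (RR k s)
  refine le_csInf ⟨_, T0, hT0, rfl⟩ ?_
  rintro _ ⟨T, hT, rfl⟩
  exact tree_cost_ge cc_nonneg hk (fun v A => gg s (ofV v) A) (term s) (term_inj hs) term_mem
    (fun v => gg_empty s (ofV v)) (fun v A B h => gg_superadd s (ofV v) h) s
    (fun v => gg_univ_le s (ofV v)) (fun u v A _ => by
      rw [cc_mk]
      exact gg_sub_le_dd s (ofV u) (ofV v) A)
    (fun i => by
      show gg s (ofV (term s i)) {i} = s
      rw [ofV_term]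
      exact gg_tt s i) hT

/-- the relaxation is at least `2 s` -/
theorem lp_ge {s : ℕ} {i j : Fin k} (hij : i ≠ j) :
    2 * (s : ℝ) ≤ LP (⊤ : SimpleGraph (Vt k s)) (cc k s) (RR k s) (term s i) := by
  classical
  refine le_csInf ?_ ?_
  · refine ⟨_, fun u v => if u = v then 0 else 1, ⟨?_, ?_, ?_⟩, rfl⟩
    · intro u v
      show (0 : ℝ) ≤ if u = v then 0 else 1
      split_ifs <;> norm_num
    · intro u v h
      have huv : u = v := by
        by_contra h'
        exact h h'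
      show (if u = v then (0 : ℝ) else 1) = 0
      rw [if_pos huv]
    · intro S hr hS
      obtain ⟨z, hz⟩ := hS
      have hzS := (mem_inter.1 hz).1
      have h1 : ∀ u ∈ Sᶜ, ∀ v ∈ S, (0 : ℝ) ≤ if u = v then 0 else 1 := by
        intro u _ v _
        split_ifs <;> norm_num
      have hrS : term s i ∈ Sᶜ := mem_compl.2 hr
      have h2 : (1 : ℝ) = if term s i = z then 0 else 1 := by
        rw [if_neg]
        rintro rfl
        exact hr hzS
      calc (1 : ℝ) = if term s i = z then 0 else 1 := h2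
        _ ≤ ∑ v ∈ S, (if term s i = v then (0 : ℝ) else 1) :=
            single_le_sum (f := fun v => if term s i = v then (0 : ℝ) else 1)
              (fun v hv => h1 _ hrS v hv) hzS
        _ ≤ ∑ u ∈ Sᶜ, ∑ v ∈ S, (if u = v then (0 : ℝ) else 1) :=
            single_le_sum (f := fun u => ∑ v ∈ S, (if u = v then (0 : ℝ) else 1))
              (fun u hu => sum_nonneg fun v hv => h1 u hu v hv) hrS
  · rintro _ ⟨x, hx, rfl⟩
    have h := coarea x hx.nonneg (term s i) (term s j)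
      (fun S hr ht => hx.cut S hr ⟨term s j, mem_inter.2 ⟨ht, term_mem j⟩⟩)
      (fun v => 2 * gg s (ofV v) {j})
    have e1 : gg s (ofV (term s j)) {j} = s := by rw [ofV_term]; exact gg_tt s j
    have e2 : gg s (ofV (term s i)) {j} = 0 := by rw [ofV_term]; exact gg_tt_ne s hij.symm
    have h' : 2 * (s : ℝ) ≤ ∑ u, ∑ v, x u v * max 0 (2 * gg s (ofV v) {j} - 2 * gg s (ofV u) {j}) := by
      have := h
      simp only [e1, e2] at this
      linarith
    refine h'.trans (sum_le_sum fun u _ => sum_le_sum fun v _ => ?_)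
    rw [mul_comm (cc k s s(u, v))]
    refine mul_le_mul_of_nonneg_left ?_ (hx.nonneg u v)
    refine max_le (cc_nonneg _) ?_
    have := gg_sub_le_dd s (ofV v) (ofV u) {j}
    rw [cc_mk, dd_comm]
    linarith

/-- arcs -/
abbrev Arcs (k s : ℕ) :=
  (↥(Wh k (s + 1)) × Fin k) ⊕ (↥(Wh k (s + 1)) × Fin k) ⊕ (↥(Wh k s) × Fin k) ⊕ ↥(Wh k s)

/-- tails -/
def asrc {s : ℕ} (r : Fin k) : Arcs k s → Vt k s
  | Sum.inl (b, _) => toV s b.1
  | Sum.inr (Sum.inl (b, m)) => toV s (dn b.1 m)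
  | Sum.inr (Sum.inr (Sum.inl (w, _))) => toV s w.1
  | Sum.inr (Sum.inr (Sum.inr _)) => term s r

/-- heads -/
def adst {s : ℕ} : Arcs k s → Vt k s
  | Sum.inl (b, m) => toV s (dn b.1 m)
  | Sum.inr (Sum.inl (b, _)) => toV s b.1
  | Sum.inr (Sum.inr (Sum.inl (_, m))) => term s m
  | Sum.inr (Sum.inr (Sum.inr w)) => toV s w.1

/-- capacities -/
noncomputable def acap {s : ℕ} (q : ℕ) (κ : ℝ) : Arcs k s → ℝ
  | Sum.inl (b, m) => vv q κ b.1 m
  | Sum.inr (Sum.inl (b, m)) => if b.1 m ≠ 0 then uu q κ b.1 m else 0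
  | Sum.inr (Sum.inr (Sum.inl (w, m))) => if w.1 m ≠ 0 then tau q κ m w.1 else 0
  | Sum.inr (Sum.inr (Sum.inr w)) => dw s q κ w.1

/-- flow of commodity `i` -/
noncomputable def aflow {s : ℕ} (q : ℕ) (κ : ℝ) (i : Fin k) : Arcs k s → ℝ
  | Sum.inl (b, m) => if b.1 i ≠ 0 ∧ m ≠ i then vv q κ b.1 m else 0
  | Sum.inr (Sum.inl (b, m)) => if m = i ∧ b.1 i ≠ 0 then uu q κ b.1 i else 0
  | Sum.inr (Sum.inr (Sum.inl (w, m))) => if m = i ∧ w.1 i ≠ 0 then tau q κ i w.1 else 0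
  | Sum.inr (Sum.inr (Sum.inr w)) => if w.1 i = 0 then dw s q κ w.1 else 0

section

variable {s q : ℕ} {κ : ℝ}

theorem acap_nonneg (hκ : 0 ≤ κ) (hq : 1 < q) (hsq : s ≤ 2 * q) (hk : s < k)
    (a : Arcs k s) : 0 ≤ acap q κ a := by
  rcases a with ⟨b, m⟩ | ⟨b, m⟩ | ⟨w, m⟩ | w
  · exact vv_nonneg hκ hq _ _
  · show 0 ≤ if b.1 m ≠ 0 then uu q κ b.1 m else 0
    split_ifs
    · exact uu_nonneg hκ hq _ _
    · exact le_rfl
  · show 0 ≤ if w.1 m ≠ 0 then tau q κ m w.1 else 0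
    split_ifs with h
    · exact tau_nonneg hκ hq hk (mem_Wh.1 w.2) h
    · exact le_rfl
  · exact dw_nonneg hκ hq hsq _

theorem aflow_nonneg (hκ : 0 ≤ κ) (hq : 1 < q) (hsq : s ≤ 2 * q) (hk : s < k) (i : Fin k)
    (a : Arcs k s) : 0 ≤ aflow q κ i a := by
  rcases a with ⟨b, m⟩ | ⟨b, m⟩ | ⟨w, m⟩ | w
  · show 0 ≤ if b.1 i ≠ 0 ∧ m ≠ i then vv q κ b.1 m else 0
    split_ifs
    · exact vv_nonneg hκ hq _ _
    · exact le_rfl
  · show 0 ≤ if m = i ∧ b.1 i ≠ 0 then uu q κ b.1 i else 0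
    split_ifs
    · exact uu_nonneg hκ hq _ _
    · exact le_rfl
  · show 0 ≤ if m = i ∧ w.1 i ≠ 0 then tau q κ i w.1 else 0
    split_ifs with h
    · exact tau_nonneg hκ hq hk (mem_Wh.1 w.2) h.2
    · exact le_rfl
  · show 0 ≤ if w.1 i = 0 then dw s q κ w.1 else 0
    split_ifs
    · exact dw_nonneg hκ hq hsq _
    · exact le_rfl

theorem aflow_le (hκ : 0 ≤ κ) (hq : 1 < q) (hsq : s ≤ 2 * q) (hk : s < k) (i : Fin k)
    (a : Arcs k s) : aflow q κ i a ≤ acap q κ a := by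
  have h0 := acap_nonneg hκ hq hsq hk a
  rcases a with ⟨b, m⟩ | ⟨b, m⟩ | ⟨w, m⟩ | w
  · show (if b.1 i ≠ 0 ∧ m ≠ i then vv q κ b.1 m else 0) ≤ _
    split_ifs
    · exact le_rfl
    · exact h0
  · show (if m = i ∧ b.1 i ≠ 0 then uu q κ b.1 i else 0) ≤ _
    split_ifs with h
    · obtain ⟨rfl, h2⟩ := h
      show _ ≤ if b.1 m ≠ 0 then uu q κ b.1 m else 0
      rw [if_pos h2]
    · exact h0
  · show (if m = i ∧ w.1 i ≠ 0 then tau q κ i w.1 else 0) ≤ _
    split_ifs with h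
    · obtain ⟨rfl, h2⟩ := h
      show _ ≤ if w.1 m ≠ 0 then tau q κ m w.1 else 0
      rw [if_pos h2]
    · exact h0
  · show (if w.1 i = 0 then dw s q κ w.1 else 0) ≤ _
    split_ifs
    · exact le_rfl
    · exact h0

theorem sum_arcs (F : Arcs k s → ℝ) : ∑ a, F a
    = ∑ b ∈ (Wh k (s + 1)).attach, ∑ m, F (Sum.inl (b, m))
      + ∑ b ∈ (Wh k (s + 1)).attach, ∑ m, F (Sum.inr (Sum.inl (b, m)))
      + ∑ w ∈ (Wh k s).attach, ∑ m, F (Sum.inr (Sum.inr (Sum.inl (w, m))))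
      + ∑ w ∈ (Wh k s).attach, F (Sum.inr (Sum.inr (Sum.inr w))) := by
  rw [Fintype.sum_sum_type, Fintype.sum_sum_type, Fintype.sum_sum_type, Fintype.sum_prod_type,
    Fintype.sum_prod_type, Fintype.sum_prod_type]
  simp only [Finset.univ_eq_attach]
  ring

theorem aflow_unit (hq : 1 < q) (r i : Fin k)
    (h1 : ∑ w ∈ (Wh k s).filter (fun w => w i = 0), dw s q κ w = 1) (p : Vt k s → ℝ) :
    ∑ a : Arcs k s, aflow q κ i a * (p (adst a) - p (asrc r a)) = p (term s i) - p (term s r) := by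
  have h := conservation (κ := κ) hq i (fun f => p (toV s f)) (p (term s r)) (s := s)
  rw [h1, one_mul] at h
  rw [sum_arcs]
  have e1 : ∑ b ∈ (Wh k (s + 1)).attach, ∑ m, aflow q κ i (Sum.inl (b, m) : Arcs k s)
        * (p (adst (Sum.inl (b, m) : Arcs k s)) - p (asrc r (Sum.inl (b, m) : Arcs k s)))
      = ∑ b ∈ (Wh k (s + 1)).filter (fun b => b i ≠ 0),
          ∑ m ∈ (supp b).erase i, vv q κ b m * (p (toV s (dn b m)) - p (toV s b)) := by
    rw [sum_filter]
    rw [← sum_attach (Wh k (s + 1)) (fun b => if b i ≠ 0 then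
      ∑ m ∈ (supp b).erase i, vv q κ b m * (p (toV s (dn b m)) - p (toV s b)) else 0)]
    refine sum_congr rfl fun b _ => ?_
    by_cases hb : b.1 i ≠ 0
    · rw [if_pos hb]
      symm
      rw [← sum_subset (subset_univ ((supp b.1).erase i))]
      · refine sum_congr rfl fun m hm => ?_
        have hm' : m ≠ i := (mem_erase.1 hm).1
        show vv q κ b.1 m * _ = (if b.1 i ≠ 0 ∧ m ≠ i then vv q κ b.1 m else 0) * _
        rw [if_pos ⟨hb, hm'⟩]
        rfl
      · intro m _ hm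
        show (if b.1 i ≠ 0 ∧ m ≠ i then vv q κ b.1 m else 0) * _ = 0
        by_cases hm' : m = i
        · rw [if_neg (fun h => h.2 hm'), zero_mul]
        · have h2 : b.1 m = 0 := by
            by_contra h3
            exact hm (mem_erase.2 ⟨hm', mem_supp.2 h3⟩)
          rw [if_pos ⟨hb, hm'⟩, vv_zero h2, zero_mul]
    · rw [if_neg hb]
      refine sum_eq_zero fun m _ => ?_
      show (if b.1 i ≠ 0 ∧ m ≠ i then vv q κ b.1 m else 0) * _ = 0
      rw [if_neg (fun h => hb h.1), zero_mul]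
  have e2 : ∑ b ∈ (Wh k (s + 1)).attach, ∑ m, aflow q κ i (Sum.inr (Sum.inl (b, m)) : Arcs k s)
        * (p (adst (Sum.inr (Sum.inl (b, m)) : Arcs k s))
          - p (asrc r (Sum.inr (Sum.inl (b, m)) : Arcs k s)))
      = ∑ b ∈ (Wh k (s + 1)).filter (fun b => b i ≠ 0),
          uu q κ b i * (p (toV s b) - p (toV s (dn b i))) := by
    rw [sum_filter]
    rw [← sum_attach (Wh k (s + 1)) (fun b => if b i ≠ 0 then
      uu q κ b i * (p (toV s b) - p (toV s (dn b i))) else 0)]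
    refine sum_congr rfl fun b _ => ?_
    rw [sum_eq_single i]
    · show (if i = i ∧ b.1 i ≠ 0 then uu q κ b.1 i else 0) * _ = _
      by_cases hb : b.1 i ≠ 0
      · rw [if_pos ⟨rfl, hb⟩, if_pos hb]
        rfl
      · rw [if_neg (fun h => hb h.2), if_neg hb, zero_mul]
    · intro m _ hm
      show (if m = i ∧ b.1 i ≠ 0 then uu q κ b.1 i else 0) * _ = 0
      rw [if_neg (fun h => hm h.1), zero_mul]
    · intro h
      exact absurd (mem_univ i) h
  have e3 : ∑ w ∈ (Wh k s).attach, ∑ m,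
        aflow q κ i (Sum.inr (Sum.inr (Sum.inl (w, m))) : Arcs k s)
        * (p (adst (Sum.inr (Sum.inr (Sum.inl (w, m))) : Arcs k s))
          - p (asrc r (Sum.inr (Sum.inr (Sum.inl (w, m))) : Arcs k s)))
      = ∑ w ∈ (Wh k s).filter (fun w => w i ≠ 0),
          tau q κ i w * (p (toV s (tt s i)) - p (toV s w)) := by
    rw [sum_filter]
    rw [← sum_attach (Wh k s) (fun w => if w i ≠ 0 then
      tau q κ i w * (p (toV s (tt s i)) - p (toV s w)) else 0)]
    refine sum_congr rfl fun w _ => ?_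
    rw [sum_eq_single i]
    · show (if i = i ∧ w.1 i ≠ 0 then tau q κ i w.1 else 0) * _ = _
      by_cases hb : w.1 i ≠ 0
      · rw [if_pos ⟨rfl, hb⟩, if_pos hb]
        rfl
      · rw [if_neg (fun h => hb h.2), if_neg hb, zero_mul]
    · intro m _ hm
      show (if m = i ∧ w.1 i ≠ 0 then tau q κ i w.1 else 0) * _ = 0
      rw [if_neg (fun h => hm h.1), zero_mul]
    · intro h
      exact absurd (mem_univ i) h
  have e4 : ∑ w ∈ (Wh k s).attach, aflow q κ i (Sum.inr (Sum.inr (Sum.inr w)) : Arcs k s)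
        * (p (adst (Sum.inr (Sum.inr (Sum.inr w)) : Arcs k s))
          - p (asrc r (Sum.inr (Sum.inr (Sum.inr w)) : Arcs k s)))
      = ∑ w ∈ (Wh k s).filter (fun w => w i = 0),
          dw s q κ w * (p (toV s w) - p (term s r)) := by
    rw [sum_filter]
    rw [← sum_attach (Wh k s) (fun w => if w i = 0 then
      dw s q κ w * (p (toV s w) - p (term s r)) else 0)]
    refine sum_congr rfl fun w _ => ?_
    show (if w.1 i = 0 then dw s q κ w.1 else 0) * _ = _
    by_cases hb : w.1 i = 0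
    · rw [if_pos hb, if_pos hb]
      rfl
    · rw [if_neg hb, if_neg hb, zero_mul]
  rw [e1, e2, e3, e4]
  show _ = p (toV s (tt s i)) - _
  linarith

theorem acost_le (hκ : 0 ≤ κ) (hq : 1 < q) (hsq : s ≤ 2 * q) (hk : s < k) (r : Fin k) :
    ∑ a : Arcs k s, acap q κ a * cc k s s(asrc r a, adst a)
    ≤ ∑ b ∈ Wh k (s + 1), ∑ m ∈ supp b, (vv q κ b m + uu q κ b m)
      + ∑ i : Fin k, ∑ w ∈ (Wh k s).filter (fun w => w i ≠ 0),
          tau q κ i w * (2 * ((s : ℝ) - w i))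
      + ∑ w ∈ Wh k s, dw s q κ w * (2 * s) := by
  rw [sum_arcs]
  have e12 : ∑ b ∈ (Wh k (s + 1)).attach, ∑ m, acap q κ (Sum.inl (b, m) : Arcs k s)
        * cc k s s(asrc r (Sum.inl (b, m) : Arcs k s), adst (Sum.inl (b, m) : Arcs k s))
      + ∑ b ∈ (Wh k (s + 1)).attach, ∑ m, acap q κ (Sum.inr (Sum.inl (b, m)) : Arcs k s)
        * cc k s s(asrc r (Sum.inr (Sum.inl (b, m)) : Arcs k s),
          adst (Sum.inr (Sum.inl (b, m)) : Arcs k s))
      ≤ ∑ b ∈ Wh k (s + 1), ∑ m ∈ supp b, (vv q κ b m + uu q κ b m) := by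
    rw [← sum_add_distrib, ← sum_attach (Wh k (s + 1)) (fun b => ∑ m ∈ supp b, (vv q κ b m + uu q κ b m))]
    refine sum_le_sum fun b _ => ?_
    rw [← sum_add_distrib, ← sum_subset (subset_univ (supp b.1))]
    · refine sum_le_sum fun m hm => ?_
      have hm' : b.1 m ≠ 0 := mem_supp.1 hm
      have hd : dd s b.1 (dn b.1 m) ≤ 1 := dd_black_white (mem_Wh.1 b.2) hm'
      have hd0 := dd_nonneg s b.1 (dn b.1 m)
      have o1 : ofV (toV s b.1) = b.1 := ofV_black b.2
      have o2 : ofV (toV s (dn b.1 m)) = dn b.1 m := ofV_white (dn_mem b.2 hm')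
      have a1 : acap q κ (Sum.inl (b, m) : Arcs k s)
          * cc k s s(asrc r (Sum.inl (b, m) : Arcs k s), adst (Sum.inl (b, m) : Arcs k s))
          ≤ vv q κ b.1 m := by
        show vv q κ b.1 m * cc k s s(toV s b.1, toV s (dn b.1 m)) ≤ _
        rw [cc_mk, o1, o2]
        exact mul_le_of_le_one_right (vv_nonneg hκ hq _ _) hd
      have a2 : acap q κ (Sum.inr (Sum.inl (b, m)) : Arcs k s)
          * cc k s s(asrc r (Sum.inr (Sum.inl (b, m)) : Arcs k s),
            adst (Sum.inr (Sum.inl (b, m)) : Arcs k s)) ≤ uu q κ b.1 m := by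
        show (if b.1 m ≠ 0 then uu q κ b.1 m else 0) * cc k s s(toV s (dn b.1 m), toV s b.1) ≤ _
        rw [if_pos hm', cc_mk, o1, o2, dd_comm]
        exact mul_le_of_le_one_right (uu_nonneg hκ hq _ _) hd
      linarith
    · intro m _ hm
      have h2 : b.1 m = 0 := by
        by_contra h3
        exact hm (mem_supp.2 h3)
      show vv q κ b.1 m * _ + (if b.1 m ≠ 0 then uu q κ b.1 m else 0) * _ = 0
      rw [vv_zero h2, if_neg (fun h => h h2)]
      ring
  have e3 : ∑ w ∈ (Wh k s).attach, ∑ m, acap q κ (Sum.inr (Sum.inr (Sum.inl (w, m))) : Arcs k s)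
        * cc k s s(asrc r (Sum.inr (Sum.inr (Sum.inl (w, m))) : Arcs k s),
          adst (Sum.inr (Sum.inr (Sum.inl (w, m))) : Arcs k s))
      ≤ ∑ i : Fin k, ∑ w ∈ (Wh k s).filter (fun w => w i ≠ 0),
          tau q κ i w * (2 * ((s : ℝ) - w i)) := by
    rw [sum_comm]
    refine sum_le_sum fun i _ => ?_
    rw [sum_filter, ← sum_attach (Wh k s) (fun w => if w i ≠ 0 then
      tau q κ i w * (2 * ((s : ℝ) - w i)) else 0)]
    refine sum_le_sum fun w _ => ?_
    show (if w.1 i ≠ 0 then tau q κ i w.1 else 0) * cc k s s(toV s w.1, term s i) ≤ _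
    by_cases hw : w.1 i ≠ 0
    · rw [if_pos hw, if_pos hw, cc_mk, ofV_white w.2, ofV_term]
      exact mul_le_mul_of_nonneg_left (dd_white_term (mem_Wh.1 w.2) i)
        (tau_nonneg hκ hq hk (mem_Wh.1 w.2) hw)
    · rw [if_neg hw, if_neg hw, zero_mul]
  have e4 : ∑ w ∈ (Wh k s).attach, acap q κ (Sum.inr (Sum.inr (Sum.inr w)) : Arcs k s)
        * cc k s s(asrc r (Sum.inr (Sum.inr (Sum.inr w)) : Arcs k s),
          adst (Sum.inr (Sum.inr (Sum.inr w)) : Arcs k s))
      ≤ ∑ w ∈ Wh k s, dw s q κ w * (2 * s) := by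
    rw [← sum_attach (Wh k s) (fun w => dw s q κ w * (2 * (s : ℝ)))]
    refine sum_le_sum fun w _ => ?_
    show dw s q κ w.1 * cc k s s(term s r, toV s w.1) ≤ _
    rw [cc_mk, ofV_white w.2, ofV_term]
    exact mul_le_mul_of_nonneg_left (dd_white_white (sum_tt s r) (mem_Wh.1 w.2))
      (dw_nonneg hκ hq hsq _)
  linarith

end

/-- the saving -/
noncomputable def Lambda (s q : ℕ) : ℝ :=
  ∑ j ∈ Icc 3 (s + 1), NN q j (s + 1) * (((j : ℝ) - 2) * ((j : ℝ) * q - (s + 1))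
          / ((j : ℝ) * ((j : ℝ) - 1) * ((q : ℝ) - 1) ^ j))

theorem DD_pos {s q : ℕ} (hq : 1 < q) : 0 < DD s q := by
  have h1 : (1 : ℝ) < q := by exact_mod_cast hq
  unfold DD
  have h2 : 0 < (q : ℝ) - 1 := by linarith
  positivity

theorem lp_le {s q : ℕ} (hq : 1 < q) (hqs : q < s) (hsq : s ≤ 2 * q) (hk : s < k) (r : Fin k) :
    LP (⊤ : SimpleGraph (Vt k s)) (cc k s) (RR k s) (term s r)
      ≤ 2 * s * k - k * (Lambda s q / DD s q) + 2 * s * (k / ((k : ℝ) - s)) := by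
  classical
  have hD := DD_pos (s := s) hq
  set κ : ℝ := 1 / DD s q with hκdef
  have hκ : 0 ≤ κ := by positivity
  have h1 : ∀ i : Fin k, ∑ w ∈ (Wh k s).filter (fun w => w i = 0), dw s q κ w = 1 := by
    intro i
    rw [sum_dw_zero hq hqs hsq hk i, hκdef]
    field_simp
  have hflow : ∀ t ∈ RR k s, t ≠ term s r → ∃ φ : Arcs k s → ℝ, (∀ a, 0 ≤ φ a) ∧
      (∀ a, φ a ≤ acap q κ a) ∧
      ∀ p : Vt k s → ℝ, ∑ a, φ a * (p (adst a) - p (asrc r a)) = p t - p (term s r) := by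
    intro t ht _
    obtain ⟨i, _, rfl⟩ := mem_image.1 ht
    exact ⟨aflow q κ i, aflow_nonneg hκ hq hsq hk i, aflow_le hκ hq hsq hk i,
      aflow_unit hq r i (h1 i)⟩
  refine (lp_le_flow cc_nonneg (asrc r) adst (acap q κ) (acap_nonneg hκ hq hsq hk) hflow).trans ?_
  refine (acost_le hκ hq hsq hk r).trans ?_
  refine (cost_total hκ hq hsq hk h1).trans (le_of_eq ?_)
  rw [sum_saving hq hsq hk]
  unfold Lambda
  rw [hκdef]
  ring

end BcrL
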