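import Pool.Agent.Lib.MP_c1293d_lc.Low.Reindex

/-!
Module Loc: local facts on the capacities.

`aa_eq`: the terms with `b m = 0` vanish, so `aa = CC * ∑_{m ∈ supp b} (q - b m) = CC (|supp b| q - (s+1))`.
`uu_up_eq_dw`: `w i = 0`, so `supp (up w i) = insert i (supp w)` has `card + 1` elements and `up w i i = 1`;
`up w i` is active iff `w ≤ q` and `2 ≤ |supp w|` (using `1 ≤ q`); then
`uu = aa - vv (up w i) i = CC (m+1) ((m+1) q - (s+1)) - CC (m+1) (q - 1) = CC (m+1) (m q - s)`.
`CC_rec`: `(m-1) CC m = (k-m) (q-1) CC (m+1)` from `(k-1).choose m * m = (k-1).choose (m-1) * (k-m)`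
(`Nat.choose_succ_right_eq`).
`tau_nonneg`: `w i ≠ 0`, `m0 := |supp w|`. If `up w i` is not active then `uu (up w i) i = 0` (all `vv` vanish)
and the rest is `≥ 0`. If it is active: `supp (up w i) = supp w`, `w l ≤ q` for all `l`, `3 ≤ m0 ≤ s < k`,
`uu (up w i) i = ∑_{l ∈ supp w, l ≠ i} CC m0 (q - w l)` (definition of `aa`; or from `aa_eq`).
For `l ∈ supp w`, `l ≠ i`: `vv (up w l) l ≥ CC m0 (q - w l - 1)` (equality if `w l < q`, otherwise the right side
is negative); for the `k - m0` indices `l ∉ supp w`: `vv (up w l) l = CC (m0+1) (q - 1)`. So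
`tau ≥ - (m0 - 1) CC m0 + (k - m0) (q - 1) CC (m0+1) = 0`.
-/

namespace BcrL

open Finset

variable {k : ℕ}

theorem CC_nonneg {k q : ℕ} {κ : ℝ} (hκ : 0 ≤ κ) (hq : 1 < q) {j : ℕ} (hj : 1 < j) :
    0 ≤ CC k q κ j := by
  have h1 : (0 : ℝ) ≤ (j : ℝ) - 1 := by
    have : (1 : ℝ) < j := by exact_mod_cast hj
    linarith
  have h2 : (0 : ℝ) ≤ (q : ℝ) - 1 := by
    have : (1 : ℝ) < q := by exact_mod_cast hq
    linarith
  unfold CC
  exact div_nonneg hκ (mul_nonneg (mul_nonneg h1 (pow_nonneg h2 _)) (Nat.cast_nonneg _))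

theorem CC_rec {k q : ℕ} {κ : ℝ} (hq : 1 < q) {m : ℕ} (hm : 2 ≤ m) (hmk : m < k) :
    ((m : ℝ) - 1) * CC k q κ m = ((k : ℝ) - m) * ((q : ℝ) - 1) * CC k q κ (m + 1) := by
  have hq' : ((q : ℝ) - 1) ≠ 0 := by
    have : (1 : ℝ) < q := by exact_mod_cast hq
    linarith
  have hm' : ((m : ℝ) - 1) ≠ 0 := by
    have : (2 : ℝ) ≤ m := by exact_mod_cast hm
    linarith
  have hm0 : (m : ℝ) ≠ 0 := by
    have : (2 : ℝ) ≤ m := by exact_mod_cast hm
    linarith
  have hc1 : (((k - 1).choose (m - 1) : ℕ) : ℝ) ≠ 0 := by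
    exact_mod_cast (Nat.choose_pos (by omega)).ne'
  have hc2 : (((k - 1).choose m : ℕ) : ℝ) ≠ 0 := by
    exact_mod_cast (Nat.choose_pos (by omega)).ne'
  have hid : (((k - 1).choose m : ℕ) : ℝ) * m = ((k - 1).choose (m - 1) : ℕ) * ((k : ℝ) - m) := by
    have h := Nat.choose_succ_right_eq (k - 1) (m - 1)
    have e1 : m - 1 + 1 = m := by omega
    have e2 : k - 1 - (m - 1) = k - m := by omega
    rw [e1, e2] at h
    have h' : (((k - 1).choose m * m : ℕ) : ℝ) = (((k - 1).choose (m - 1) * (k - m) : ℕ) : ℝ) := by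
      exact_mod_cast h
    push_cast [Nat.cast_sub hmk.le] at h'
    exact h'
  unfold CC
  have e3 : ((m + 1 : ℕ) : ℝ) - 1 = m := by push_cast; ring
  rw [e3, Nat.add_sub_cancel, pow_succ]
  field_simp
  linear_combination κ * hid

theorem vv_nonneg {q : ℕ} {κ : ℝ} (hκ : 0 ≤ κ) (hq : 1 < q) (b : Fin k → ℕ) (m : Fin k) :
    0 ≤ vv q κ b m := by
  unfold vv
  split_ifs with h
  · refine mul_nonneg (CC_nonneg hκ hq (by have := h.1.2; omega)) ?_
    have : ((b m : ℕ) : ℝ) ≤ q := by exact_mod_cast h.1.1 m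
    linarith
  · exact le_rfl

theorem vv_zero {q : ℕ} {κ : ℝ} {b : Fin k → ℕ} {m : Fin k} (h : b m = 0) : vv q κ b m = 0 := by
  unfold vv
  rw [if_neg]
  exact fun h' => h'.2 h

theorem vv_not_act {q : ℕ} {κ : ℝ} {b : Fin k → ℕ} (h : ¬ act q b) (m : Fin k) :
    vv q κ b m = 0 := by
  unfold vv
  rw [if_neg]
  exact fun h' => h h'.1

theorem aa_not_act {q : ℕ} {κ : ℝ} {b : Fin k → ℕ} (h : ¬ act q b) : aa q κ b = 0 := by
  unfold aa
  exact sum_eq_zero fun m _ => vv_not_act h m

theorem aa_nonneg {q : ℕ} {κ : ℝ} (hκ : 0 ≤ κ) (hq : 1 < q) (b : Fin k → ℕ) : 0 ≤ aa q κ b := by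
  unfold aa
  exact sum_nonneg fun m _ => vv_nonneg hκ hq b m

theorem aa_eq_supp (q : ℕ) (κ : ℝ) (b : Fin k → ℕ) : aa q κ b = ∑ m ∈ supp b, vv q κ b m := by
  unfold aa
  symm
  refine sum_subset (subset_univ _) fun m _ hm => ?_
  refine vv_zero ?_
  by_contra h
  exact hm (mem_supp.2 h)

/-- `vv` on an active vector -/
private theorem vv_act {q : ℕ} {κ : ℝ} {b : Fin k → ℕ} (h : act q b) {m : Fin k}
    (hm : b m ≠ 0) : vv q κ b m = CC k q κ (supp b).card * ((q : ℝ) - (b m : ℝ)) := by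
  unfold vv
  rw [if_pos ⟨h, hm⟩]

private theorem sum_supp_cast (b : Fin k → ℕ) :
    ∑ m ∈ supp b, ((b m : ℕ) : ℝ) = ((∑ i, b i : ℕ) : ℝ) := by
  rw [Nat.cast_sum]
  refine sum_subset (subset_univ _) fun m _ hm => ?_
  have : b m = 0 := by
    by_contra h
    exact hm (mem_supp.2 h)
  rw [this, Nat.cast_zero]

theorem aa_eq {s q : ℕ} {κ : ℝ} {b : Fin k → ℕ} (hb : ∑ i, b i = s + 1) (h : act q b) :
    aa q κ b = CC k q κ (supp b).card * (((supp b).card : ℝ) * q - (s + 1)) := by
  rw [aa_eq_supp, sum_congr rfl fun m hm => vv_act h (mem_supp.1 hm), ← mul_sum,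
    sum_sub_distrib, sum_supp_cast, hb, sum_const, nsmul_eq_mul]
  push_cast
  ring

theorem uu_nonneg {q : ℕ} {κ : ℝ} (hκ : 0 ≤ κ) (hq : 1 < q) (b : Fin k → ℕ) (m : Fin k) :
    0 ≤ uu q κ b m := by
  unfold uu aa
  rw [sub_nonneg]
  exact single_le_sum (f := fun m => vv q κ b m) (fun m _ => vv_nonneg hκ hq b m) (mem_univ m)

theorem uu_not_act {q : ℕ} {κ : ℝ} {b : Fin k → ℕ} (h : ¬ act q b) (m : Fin k) :
    uu q κ b m = 0 := by
  unfold uu
  rw [aa_not_act h, vv_not_act h, sub_zero]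

theorem dw_nonneg {s q : ℕ} {κ : ℝ} (hκ : 0 ≤ κ) (hq : 1 < q) (hsq : s ≤ 2 * q)
    (w : Fin k → ℕ) : 0 ≤ dw s q κ w := by
  unfold dw
  split_ifs with h
  · refine mul_nonneg (CC_nonneg hκ hq (by have := h.2; omega)) ?_
    have h1 : (2 : ℝ) ≤ (supp w).card := by exact_mod_cast h.2
    have h2 : ((s : ℕ) : ℝ) ≤ 2 * q := by exact_mod_cast hsq
    have h3 : (0 : ℝ) ≤ q := Nat.cast_nonneg _
    nlinarith
  · exact le_rfl

private theorem card_supp_up_of_zero {w : Fin k → ℕ} {i : Fin k} (hi : w i = 0) :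
    (supp (up w i)).card = (supp w).card + 1 := by
  rw [supp_up, card_insert_of_notMem]
  exact fun h => mem_supp.1 h hi

private theorem supp_up_of_ne {w : Fin k → ℕ} {i : Fin k} (hi : w i ≠ 0) :
    supp (up w i) = supp w := by
  rw [supp_up, insert_eq_of_mem (mem_supp.2 hi)]

theorem uu_up_eq_dw {s q : ℕ} {κ : ℝ} (hq : 1 < q) {w : Fin k → ℕ} (hw : ∑ i, w i = s)
    {i : Fin k} (hi : w i = 0) : uu q κ (up w i) i = dw s q κ w := by
  have hup : up w i i = 1 := by rw [up_same, hi]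
  have hcard := card_supp_up_of_zero hi
  have hiff : act q (up w i) ↔ ((∀ l, w l ≤ q) ∧ 2 ≤ (supp w).card) := by
    unfold act
    rw [hcard]
    constructor
    · rintro ⟨h1, h2⟩
      refine ⟨fun l => ?_, by omega⟩
      by_cases hl : l = i
      · rw [hl, hi]; exact Nat.zero_le _
      · have := h1 l
        rwa [up_ne w hl] at this
    · rintro ⟨h1, h2⟩
      refine ⟨fun l => ?_, by omega⟩
      by_cases hl : l = i
      · rw [hl, hup]; exact hq.le
      · rw [up_ne w hl]; exact h1 l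
  by_cases h : act q (up w i)
  · have hsum : ∑ l, up w i l = s + 1 := by rw [sum_up, hw]
    unfold dw
    rw [if_pos (hiff.1 h)]
    unfold uu
    rw [aa_eq hsum h, vv_act h (by rw [hup]; exact one_ne_zero), hcard, hup]
    push_cast
    ring
  · unfold dw
    rw [if_neg (fun h' => h (hiff.2 h')), uu_not_act h]

theorem tau_nonneg {s q : ℕ} {κ : ℝ} (hκ : 0 ≤ κ) (hq : 1 < q) (hk : s < k)
    {w : Fin k → ℕ} (hw : ∑ i, w i = s) {i : Fin k} (hi : w i ≠ 0) : 0 ≤ tau q κ i w := by
  by_cases h : act q (up w i)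
  · set M := (supp w).card with hM
    have hsi : supp (up w i) = supp w := supp_up_of_ne hi
    have hM3 : 3 ≤ M := by
      have := h.2
      rwa [hsi] at this
    have hMs : M ≤ s := card_supp_le hw
    have hMk : M < k := lt_of_le_of_lt hMs hk
    have hwq : ∀ l, w l ≤ q := by
      intro l
      by_cases hl : l = i
      · have := h.1 i
        rw [up_same] at this
        rw [hl]; omega
      · have := h.1 l
        rwa [up_ne w hl] at this
    have hCM : 0 ≤ CC k q κ M := CC_nonneg hκ hq (by omega)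
    have hisupp : i ∈ supp w := mem_supp.2 hi
    -- the value of `uu`
    have huu : uu q κ (up w i) i = ∑ l ∈ (supp w).erase i, CC k q κ M * ((q : ℝ) - w l) := by
      unfold uu
      rw [aa_eq_supp, hsi, ← add_sum_erase _ _ hisupp, add_sub_cancel_left]
      refine sum_congr rfl fun l hl => ?_
      have hli : l ≠ i := (mem_erase.1 hl).1
      have hl0 : w l ≠ 0 := mem_supp.1 (mem_erase.1 hl).2
      rw [vv_act h (by rw [up_ne w hli]; exact hl0), hsi, up_ne w hli]
    -- lower bounds of the `vv (up w l) l`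
    have hin : ∀ l ∈ (supp w).erase i,
        CC k q κ M * ((q : ℝ) - w l) - CC k q κ M ≤ vv q κ (up w l) l := by
      intro l hl
      have hl0 : w l ≠ 0 := mem_supp.1 (mem_erase.1 hl).2
      by_cases hlq : w l < q
      · have hact : act q (up w l) := by
          refine ⟨fun m => ?_, ?_⟩
          · by_cases hm : m = l
            · rw [hm, up_same]; omega
            · rw [up_ne w hm]; exact hwq m
          · rw [supp_up_of_ne hl0]; exact hM3
        rw [vv_act hact (by rw [up_same]; omega), supp_up_of_ne hl0, up_same]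
        push_cast
        apply le_of_eq
        rw [← hM]
        ring
      · have hlq' : w l = q := le_antisymm (hwq l) (not_lt.1 hlq)
        have := vv_nonneg hκ hq (up w l) l
        rw [hlq']
        have e : CC k q κ M * ((q : ℝ) - q) - CC k q κ M = - CC k q κ M := by ring
        rw [e]
        linarith
    have hout : ∀ l ∈ (supp w)ᶜ, vv q κ (up w l) l = CC k q κ (M + 1) * ((q : ℝ) - 1) := by
      intro l hl
      have hl0 : w l = 0 := by
        by_contra h'
        exact (mem_compl.1 hl) (mem_supp.2 h')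
      have hact : act q (up w l) := by
        refine ⟨fun m => ?_, ?_⟩
        · by_cases hm : m = l
          · rw [hm, up_same, hl0]; omega
          · rw [up_ne w hm]; exact hwq m
        · rw [card_supp_up_of_zero hl0]; omega
      rw [vv_act hact (by rw [up_same]; omega), card_supp_up_of_zero hl0, up_same, hl0]
      push_cast
      ring
    have hsplit : ∑ m ∈ univ.erase i, vv q κ (up w m) m
        = ∑ m ∈ (supp w).erase i, vv q κ (up w m) m + ∑ m ∈ (supp w)ᶜ, vv q κ (up w m) m := by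
      have h1 := sum_add_sum_compl (supp w) (fun m => vv q κ (up w m) m)
      have h2 := add_sum_erase univ (fun m => vv q κ (up w m) m) (mem_univ i)
      have h3 := add_sum_erase (supp w) (fun m => vv q κ (up w m) m) hisupp
      linarith
    have hcout : (((supp w)ᶜ.card : ℕ) : ℝ) = (k : ℝ) - M := by
      rw [card_compl, Fintype.card_fin, Nat.cast_sub hMk.le]
    have hcin : ((((supp w).erase i).card : ℕ) : ℝ) = (M : ℝ) - 1 := by
      rw [card_erase_of_mem hisupp, Nat.cast_sub (by omega), Nat.cast_one]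
    have hrec := CC_rec (κ := κ) hq (show 2 ≤ M by omega) hMk
    unfold tau
    rw [hsplit, huu, sum_congr rfl hout, sum_const, nsmul_eq_mul, hcout]
    have hsum := sum_le_sum hin
    rw [sum_sub_distrib, sum_const, nsmul_eq_mul, hcin] at hsum
    linarith
  · unfold tau
    rw [uu_not_act h, sub_zero]
    exact sum_nonneg fun m _ => vv_nonneg hκ hq _ _

end BcrL
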