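import Pool.Agent.Lib.MP_c1293d_lc.Low.Inst

/-!
Numerics for `s = 50000`, `q = 30419`.
-/

namespace BcrL

open Finset

theorem NN_nonneg {q j n : ℕ} (hj : 2 ≤ j) (hn : 1 ≤ n) (hnq : n < 2 * q + 2) : 0 ≤ NN q j n := by
  have h := card_le_q (k := j) (univ : Finset (Fin j)) (by simpa using hj) hn hnq
  rw [card_univ, Fintype.card_fin] at h
  rw [← h]
  positivity

theorem Lambda_ge {s q : ℕ} (hq : 1 < q) (hqs : q < s) (hsq : s ≤ 2 * q) (hs : 11 ≤ s + 1) :
    ∑ j ∈ Icc 3 11, NN q j (s + 1) * (((j : ℝ) - 2) * ((j : ℝ) * q - (s + 1))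
          / ((j : ℝ) * ((j : ℝ) - 1) * ((q : ℝ) - 1) ^ j)) ≤ Lambda s q := by
  unfold Lambda
  refine sum_le_sum_of_subset_of_nonneg (Icc_subset_Icc_right hs) ?_
  intro j hj _
  have hj3 : 3 ≤ j := (mem_Icc.1 hj).1
  have h3 : (3 : ℝ) ≤ j := by exact_mod_cast hj3
  have hq1 : (1 : ℝ) < q := by exact_mod_cast hq
  have hs2 : (s : ℝ) ≤ 2 * q := by exact_mod_cast hsq
  have h4 : 0 ≤ (j : ℝ) * q - (s + 1) := by nlinarith
  have h5 : 0 ≤ (q : ℝ) - 1 := by linarith
  refine mul_nonneg (NN_nonneg (by omega) (by omega) (by omega)) (div_nonneg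
    (mul_nonneg (by linarith) h4) (mul_nonneg (mul_nonneg (by linarith) (by linarith))
      (pow_nonneg h5 j)))

theorem DD_le : DD 50000 30419 ≤ 30421 / 30418 ^ 2 := by
  unfold DD
  have h1 : ((30419 : ℕ) : ℝ) / (((30419 : ℕ) : ℝ) - 1) = 1 + 1 / 30418 := by norm_num
  rw [h1]
  have h2 : (1 + 1 / 30418 : ℝ) ^ (50000 - 1 - 30419) ≤ 3 := by
    have h3 : (1 + 1 / 30418 : ℝ) ≤ Real.exp (1 / 30418) := by
      have := Real.add_one_le_exp (1 / 30418 : ℝ)
      linarith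
    calc (1 + 1 / 30418 : ℝ) ^ (50000 - 1 - 30419) ≤ (Real.exp (1 / 30418)) ^ (50000 - 1 - 30419) :=
          pow_le_pow_left₀ (by norm_num) h3 _
      _ = Real.exp ((50000 - 1 - 30419 : ℕ) * (1 / 30418)) := by rw [← Real.exp_nat_mul]
      _ ≤ Real.exp 1 := by
          apply Real.exp_le_exp.2
          norm_num
      _ ≤ 3 := by
          have := Real.exp_one_lt_d9
          linarith
  have h4 : (((30419 : ℕ) : ℝ) - 1) = 30418 := by norm_num
  rw [h4]
  rw [div_le_div_iff_of_pos_right (by positivity)]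
  linarith

theorem sigma_ge : 18195 ≤ Lambda 50000 30419 / DD 50000 30419 := by
  have hD := DD_pos (s := 50000) (q := 30419) (by norm_num)
  have hL := Lambda_ge (s := 50000) (q := 30419) (by norm_num) (by norm_num) (by norm_num)
    (by norm_num)
  rw [le_div_iff₀ hD]
  refine (mul_le_mul_of_nonneg_left DD_le (by norm_num)).trans (le_trans ?_ hL)
  have hI : Icc 3 11 = ({3, 4, 5, 6, 7, 8, 9, 10, 11} : Finset ℕ) := by decide
  rw [hI]
  simp only [NN, Nat.choose_eq_descFactorial_div_factorial, Nat.descFactorial, Nat.factorial]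
  norm_num

end BcrL
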