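import Pool.Agent.Lib.MP_c1293d_lc.Low.Defs

/-!
Module Reindex: basic facts on `up`, `dn`, `supp`, `Wh`, and the double counting
`(b, m)`, `m ∈ supp b`  ↔  `(w, m)`, `b = up w m`, `w = dn b m`.

PROOF of `reindex`: `Finset.sum_sigma'` on both sides and `Finset.sum_bij'` (or `sum_nbij'`) with the maps
`⟨b, m⟩ ↦ ⟨dn b m, m⟩` and `⟨w, m⟩ ↦ ⟨up w m, m⟩`.
-/

namespace BcrL

open Finset

variable {k : ℕ}

theorem mem_Wh {s : ℕ} {f : Fin k → ℕ} : f ∈ Wh k s ↔ ∑ i, f i = s := by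
  unfold Wh
  rw [mem_piAntidiag]
  exact ⟨fun h => h.1, fun h => ⟨h, fun i _ => mem_univ i⟩⟩

theorem mem_supp {f : Fin k → ℕ} {i : Fin k} : i ∈ supp f ↔ f i ≠ 0 := by
  unfold supp
  simp

theorem up_same (f : Fin k → ℕ) (i : Fin k) : up f i i = f i + 1 := by
  unfold up
  rw [Function.update_self]

theorem up_ne (f : Fin k → ℕ) {i l : Fin k} (h : l ≠ i) : up f i l = f l := by
  unfold up
  rw [Function.update_of_ne h]

theorem dn_same (f : Fin k → ℕ) (i : Fin k) : dn f i i = f i - 1 := by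
  unfold dn
  rw [Function.update_self]

theorem dn_ne (f : Fin k → ℕ) {i l : Fin k} (h : l ≠ i) : dn f i l = f l := by
  unfold dn
  rw [Function.update_of_ne h]

theorem dn_up (f : Fin k → ℕ) (i : Fin k) : dn (up f i) i = f := by
  funext l
  by_cases h : l = i
  · subst h
    rw [dn_same, up_same, Nat.add_sub_cancel]
  · rw [dn_ne _ h, up_ne _ h]

theorem up_dn (f : Fin k → ℕ) {i : Fin k} (h : f i ≠ 0) : up (dn f i) i = f := by
  funext l
  by_cases hl : l = i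
  · subst hl
    rw [up_same, dn_same]
    omega
  · rw [up_ne _ hl, dn_ne _ hl]

theorem sum_up (f : Fin k → ℕ) (i : Fin k) : ∑ l, up f i l = ∑ l, f l + 1 := by
  rw [← Finset.add_sum_erase univ (up f i) (mem_univ i), ← Finset.add_sum_erase univ f (mem_univ i),
    up_same, Finset.sum_congr rfl (fun l hl => up_ne f (ne_of_mem_erase hl))]
  ring

theorem sum_dn {s : ℕ} {f : Fin k → ℕ} (hf : ∑ l, f l = s + 1) {i : Fin k} (h : f i ≠ 0) :
    ∑ l, dn f i l = s := by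
  have h1 := sum_up (dn f i) i
  rw [up_dn f h, hf] at h1
  omega

/-- support of `up f i` -/
theorem supp_up (f : Fin k → ℕ) (i : Fin k) : supp (up f i) = insert i (supp f) := by
  ext l
  rw [mem_insert, mem_supp, mem_supp]
  by_cases h : l = i
  · subst h
    rw [up_same]
    exact ⟨fun _ => Or.inl rfl, fun _ => Nat.succ_ne_zero _⟩
  · rw [up_ne _ h]
    exact ⟨fun h' => Or.inr h', fun h' => h'.resolve_left h⟩

theorem card_supp_le {s : ℕ} {f : Fin k → ℕ} (hf : ∑ l, f l = s) : (supp f).card ≤ s := by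
  rw [← hf, card_eq_sum_ones]
  calc ∑ _i ∈ supp f, 1 ≤ ∑ i ∈ supp f, f i :=
        sum_le_sum (fun i hi => Nat.one_le_iff_ne_zero.2 (mem_supp.1 hi))
    _ ≤ ∑ i, f i := sum_le_sum_of_subset (subset_univ _)

theorem reindex (k s : ℕ) (F : (Fin k → ℕ) → Fin k → ℝ) :
    ∑ b ∈ Wh k (s + 1), ∑ m ∈ supp b, F b m = ∑ w ∈ Wh k s, ∑ m, F (up w m) m := by
  rw [Finset.sum_sigma', Finset.sum_sigma']
  refine Finset.sum_bij' (fun x _ => ⟨dn x.1 x.2, x.2⟩) (fun x _ => ⟨up x.1 x.2, x.2⟩)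
    ?_ ?_ ?_ ?_ ?_
  · rintro ⟨b, m⟩ hx
    rw [mem_sigma] at hx ⊢
    exact ⟨mem_Wh.2 (sum_dn (mem_Wh.1 hx.1) (mem_supp.1 hx.2)), mem_univ _⟩
  · rintro ⟨w, m⟩ hx
    rw [mem_sigma] at hx ⊢
    refine ⟨mem_Wh.2 ?_, mem_supp.2 ?_⟩
    · rw [sum_up, mem_Wh.1 hx.1]
    · show up w m m ≠ 0
      rw [up_same]
      exact Nat.succ_ne_zero _
  · rintro ⟨b, m⟩ hx
    rw [mem_sigma] at hx
    show (⟨up (dn b m) m, m⟩ : (_ : Fin k → ℕ) × Fin k) = ⟨b, m⟩
    rw [up_dn b (mem_supp.1 hx.2)]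
  · rintro ⟨w, m⟩ _
    show (⟨dn (up w m) m, m⟩ : (_ : Fin k → ℕ) × Fin k) = ⟨w, m⟩
    rw [dn_up]
  · rintro ⟨b, m⟩ hx
    rw [mem_sigma] at hx
    show F b m = F (up (dn b m) m) m
    rw [up_dn b (mem_supp.1 hx.2)]

end BcrL
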